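import Mathlib

/-!
# The bridging property in the free group of rank two

For `z = a⁻¹ t⁻ᵐ a tᵐ` with `m` large, every short word with value `g` (which is not a short word
in the old letters) has to use the letter `z` at one and the same place of the group.
-/

namespace Pool.Agent.Work.MP_5a4e9f_an

/-- The products of at most `N` letters from `W`. -/
def Qset {Γ : Type*} [Group Γ] (W : Set Γ) (N : ℕ) : Set Γ :=
  {g | ∃ l : List Γ, l.length ≤ N ∧ (∀ s ∈ l, s ∈ W) ∧ l.prod = g}

/-- The bridging property of the new letter `z`. -/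
def Bridging {Γ : Type*} [Group Γ] (W : Set Γ) (N : ℕ) (z : Γ) : Prop :=
  ∀ g ∉ Qset W N, ∃ v : Γ, ∀ l : List Γ, l.length ≤ N →
    (∀ s ∈ l, s ∈ W ∨ s = z ∨ s = z⁻¹) → l.prod = g →
    ∃ l₁ s l₂, l = l₁ ++ s :: l₂ ∧ ((s = z ∧ l₂.prod = v) ∨ (s = z⁻¹ ∧ l₂.prod = z * v))

/-- The free group of rank two. -/
abbrev F2 := FreeGroup Bool

/-- The first generator. -/
def ga : F2 := FreeGroup.of true

/-- The second generator. -/
def gt : F2 := FreeGroup.of false

/-- The auxiliary permutations used to count crossings of the edge `(p, a p)`. -/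
def crossGen (p : F2) (b : Bool) : Equiv.Perm (F2 × ℤ) where
  toFun x := (FreeGroup.of b * x.1, x.2 + (if b = true ∧ x.1 = p then 1 else 0))
  invFun y := ((FreeGroup.of b)⁻¹ * y.1,
    y.2 - (if b = true ∧ (FreeGroup.of b)⁻¹ * y.1 = p then 1 else 0))
  left_inv x := by simp
  right_inv y := by simp

/-- The action on `F2 × ℤ` counting crossings. -/
def crossHom (p : F2) : F2 →* Equiv.Perm (F2 × ℤ) := FreeGroup.lift (crossGen p)

/-- Number of signed crossings of the edge `(p, a p)` on the path from `x` to `g x`. -/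
def cross (p g x : F2) : ℤ := (crossHom p g (x, 0)).2

lemma crossHom_apply (p g x : F2) (n : ℤ) : crossHom p g (x, n) = (g * x, n + cross p g x) := by
  induction g using FreeGroup.induction_on generalizing x n with
  | C1 => simp [crossHom, cross]
  | of b => simp [crossHom, cross, crossGen]
  | inv_of b _ =>
    simp [crossHom, cross, crossGen, Equiv.Perm.inv_def, sub_eq_add_neg]
  | mul g h ihg ihh =>
    have e1 : crossHom p (g * h) (x, n) = crossHom p g (crossHom p h (x, n)) := by
      rw [map_mul]; rfl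
    have e2 : cross p (g * h) x = cross p g (h * x) + cross p h x := by
      unfold cross
      rw [map_mul, Equiv.Perm.mul_apply, ihh x 0, ihg (h * x) _]
      simp only [cross]
      ring
    rw [e1, ihh x n, ihg (h * x) _, e2]
    ext
    · simp [mul_assoc]
    · simp only; ring

lemma cross_mul (p g h x : F2) : cross p (g * h) x = cross p g (h * x) + cross p h x := by
  have : crossHom p (g * h) (x, 0) = crossHom p g (crossHom p h (x, 0)) := by
    rw [map_mul]; rfl
  unfold cross
  rw [this, crossHom_apply p h x 0, crossHom_apply p g (h * x) _]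
  simp only [cross]
  ring

lemma cross_one (p x : F2) : cross p 1 x = 0 := by simp [cross, crossHom]

lemma cross_inv (p g x : F2) : cross p g⁻¹ x = - cross p g (g⁻¹ * x) := by
  have := cross_mul p g g⁻¹ x
  rw [mul_inv_cancel, cross_one] at this
  linarith

lemma cross_ga (p x : F2) : cross p ga x = if x = p then 1 else 0 := by
  simp [cross, crossHom, crossGen, ga]

lemma cross_gt (p x : F2) : cross p gt x = 0 := by
  simp [cross, crossHom, crossGen, gt]

/-- The height (exponent sum of `t`). -/
def ht (g : F2) : ℤ :=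
  Multiplicative.toAdd
    (FreeGroup.lift (fun b : Bool => if b then (1 : Multiplicative ℤ) else Multiplicative.ofAdd 1) g)

lemma ht_mul (g h : F2) : ht (g * h) = ht g + ht h := by simp [ht]

lemma ht_one : ht 1 = 0 := by simp [ht]

lemma ht_inv (g : F2) : ht g⁻¹ = - ht g := by simp [ht]

lemma ht_ga : ht ga = 0 := by simp [ht, ga]

lemma ht_gt : ht gt = 1 := by simp [ht, gt]

lemma ht_gt_pow (m : ℕ) : ht (gt ^ m) = m := by
  induction m with
  | zero => simp [ht_one]
  | succ n ih => rw [pow_succ, ht_mul, ih, ht_gt]; push_cast; ring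

/-- The commutator-like element `a⁻¹ t⁻ᵐ a tᵐ`. -/
def zel (m : ℕ) : F2 := ga⁻¹ * (gt ^ m)⁻¹ * ga * gt ^ m

lemma ht_zel (m : ℕ) : ht (zel m) = 0 := by
  simp only [zel, ht_mul, ht_inv, ht_ga, ht_gt_pow]; ring

lemma cross_gt_pow (p x : F2) (m : ℕ) : cross p (gt ^ m) x = 0 := by
  induction m generalizing x with
  | zero => simp [cross_one]
  | succ n ih => rw [pow_succ, cross_mul, ih, cross_gt]; simp

lemma cross_zel (p x : F2) (m : ℕ) :
    cross p (zel m) x = (if gt ^ m * x = p then 1 else 0) - (if zel m * x = p then 1 else 0) := by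
  have h1 : zel m * x = ga⁻¹ * ((gt ^ m)⁻¹ * (ga * (gt ^ m * x))) := by
    simp [zel, mul_assoc]
  have h2 : cross p (zel m) x = cross p ga⁻¹ ((gt ^ m)⁻¹ * (ga * (gt ^ m * x))) +
      cross p (gt ^ m)⁻¹ (ga * (gt ^ m * x)) + cross p ga (gt ^ m * x) + cross p (gt ^ m) x := by
    unfold zel
    rw [cross_mul, cross_mul, cross_mul]
  rw [h2, cross_inv, cross_inv, cross_gt_pow, cross_gt_pow, cross_ga, cross_ga, ← h1]
  ring

lemma zel_ne_one {m : ℕ} (hm : 0 < m) : zel m ≠ 1 := by
  intro h1
  have h2 := cross_zel (gt ^ m) 1 m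
  rw [mul_one, if_pos rfl, if_neg, h1, cross_one] at h2
  · norm_num at h2
  intro h'
  have := congrArg ht h'
  rw [ht_mul, ht_zel, ht_gt_pow, ht_one] at this
  omega

/-- Far from the edge nothing is crossed. -/
lemma exists_far (w : F2) : ∃ c : ℕ, |ht w| ≤ c ∧
    ∀ p x : F2, (c : ℤ) < |ht x - ht p| → cross p w x = 0 := by
  induction w using FreeGroup.induction_on with
  | C1 => exact ⟨0, by simp [ht_one], fun p x _ => cross_one p x⟩
  | of b =>
    cases b with
    | false =>
      refine ⟨1, ?_, fun p x _ => cross_gt p x⟩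
      have := ht_gt
      unfold gt at this
      rw [this]; norm_num
    | true =>
      refine ⟨0, ?_, fun p x hx => ?_⟩
      · have := ht_ga
        unfold ga at this
        rw [this]; norm_num
      · have := cross_ga p x
        unfold ga at this
        rw [this, if_neg]
        rintro rfl
        simp at hx
  | inv_of b ih =>
    obtain ⟨c, hc1, hc⟩ := ih
    refine ⟨c + c, ?_, fun p x hx => ?_⟩
    · rw [ht_inv, abs_neg]; push_cast; linarith [abs_nonneg (ht (FreeGroup.of b))]
    · rw [cross_inv, hc, neg_zero]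
      rw [ht_mul, ht_inv]
      have h1 := abs_sub_abs_le_abs_sub (ht x - ht p) (ht (FreeGroup.of b))
      have h2 : -ht (FreeGroup.of b) + ht x - ht p = ht x - ht p - ht (FreeGroup.of b) := by ring
      rw [h2]
      push_cast at hx
      linarith
  | mul g h ihg ihh =>
    obtain ⟨c, hc1, hc⟩ := ihg
    obtain ⟨d, hd1, hd⟩ := ihh
    refine ⟨c + d, ?_, fun p x hx => ?_⟩
    · rw [ht_mul]; push_cast; exact (abs_add_le _ _).trans (add_le_add hc1 hd1)
    · push_cast at hx
      rw [cross_mul, hd p x (by have := abs_nonneg (ht g); linarith), hc, zero_add]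
      rw [ht_mul]
      have h1 := abs_sub_abs_le_abs_sub (ht x - ht p) (-ht h)
      have h2 : ht h + ht x - ht p = ht x - ht p - (-ht h) := by ring
      rw [h2]
      rw [abs_neg] at h1
      linarith

/-- A uniform constant for a finite set. -/
lemma exists_far_finite {W : Set F2} (hW : W.Finite) : ∃ c : ℕ, ∀ w ∈ W, |ht w| ≤ c ∧
    ∀ p x : F2, (c : ℤ) < |ht x - ht p| → cross p w x = 0 := by
  choose c hc using exists_far
  refine ⟨hW.toFinset.sup c, fun w hw => ?_⟩
  have hle : c w ≤ hW.toFinset.sup c := Finset.le_sup (by simpa using hw)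
  have hle' : (c w : ℤ) ≤ (hW.toFinset.sup c : ℕ) := by exact_mod_cast hle
  exact ⟨(hc w).1.trans hle', fun p x hx => (hc w).2 p x (lt_of_le_of_lt hle' hx)⟩

/-- Crossing of the special edge `{h, z h}` by the letter `s` at `x`. -/
def Crosses (z h s x : F2) : Prop := (s = z ∧ x = h) ∨ (s = z⁻¹ ∧ x = z * h)

lemma Crosses.ends {z h s x : F2} (H : Crosses z h s x) :
    (x = h ∧ s * x = z * h) ∨ (x = z * h ∧ s * x = h) := by
  rcases H with ⟨rfl, rfl⟩ | ⟨rfl, rfl⟩
  · left; exact ⟨rfl, rfl⟩
  · right; simp

section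
variable {W : Set F2} {c N m : ℕ}

lemma ht_word_le (hc : ∀ w ∈ W, |ht w| ≤ c) {l : List F2}
    (hl : ∀ s ∈ l, s ∈ W ∨ s = zel m ∨ s = (zel m)⁻¹) : |ht l.prod| ≤ l.length * c := by
  induction l with
  | nil => simp [ht_one]
  | cons s l ih =>
    have h1 := ih (fun s' hs' => hl s' (List.mem_cons_of_mem _ hs'))
    have h2 : |ht s| ≤ c := by
      rcases hl s List.mem_cons_self with h | rfl | rfl
      · exact hc s h
      · rw [ht_zel]; simp
      · rw [ht_inv, ht_zel]; simp
    rw [List.prod_cons, ht_mul, List.length_cons]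
    push_cast
    have := abs_add_le (ht s) (ht l.prod)
    linarith

/-- One letter, not crossing the special edge, contributes nothing. -/
lemma cross_letter (hc : ∀ w ∈ W, |ht w| ≤ c ∧
      ∀ p x : F2, (c : ℤ) < |ht x - ht p| → cross p w x = 0)
    {K : ℕ} (hm : 2 * K + c < m) {h x s : F2} (hh : |ht h| ≤ K) (hx : |ht x| ≤ K)
    (hs : s ∈ W ∨ s = zel m ∨ s = (zel m)⁻¹) (hcr : ¬ Crosses (zel m) h s x) :
    cross (gt ^ m * h) s x = 0 := by
  have hm' : 2 * (K : ℤ) + c < m := by exact_mod_cast hm
  have hp : ht (gt ^ m * h) = m + ht h := by rw [ht_mul, ht_gt_pow]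
  rw [abs_le] at hh hx
  rcases hs with hs | rfl | rfl
  · apply (hc s hs).2
    rw [hp, abs_sub_comm, lt_abs]
    left; linarith
  · rw [cross_zel, if_neg, if_neg, sub_zero]
    · intro h'
      have := congrArg ht h'
      rw [hp, ht_mul, ht_zel] at this
      have hc0 : (0 : ℤ) ≤ c := Int.natCast_nonneg _
      linarith
    · intro h'
      exact hcr (Or.inl ⟨rfl, mul_left_cancel h'⟩)
  · rw [cross_inv, cross_zel, if_neg, if_neg]; · simp
    · intro h'
      have := congrArg ht h'
      rw [hp, mul_inv_cancel_left] at this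
      have hc0 : (0 : ℤ) ≤ c := Int.natCast_nonneg _
      linarith
    · intro h'
      refine hcr (Or.inr ⟨rfl, ?_⟩)
      have := mul_left_cancel h'
      rw [← this]; simp

/-- A word without crossing of the special edge contributes nothing. -/
lemma cross_word (hc : ∀ w ∈ W, |ht w| ≤ c ∧
      ∀ p x : F2, (c : ℤ) < |ht x - ht p| → cross p w x = 0)
    {K : ℕ} (hm : 2 * K + c < m) {h x : F2} (hh : |ht h| ≤ K) (l : List F2)
    (hl : ∀ s ∈ l, s ∈ W ∨ s = zel m ∨ s = (zel m)⁻¹)
    (hx : ∀ l₁ l₂, l = l₁ ++ l₂ → |ht (l₂.prod * x)| ≤ K)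
    (hcr : ∀ l₁ s l₂, l = l₁ ++ s :: l₂ → ¬ Crosses (zel m) h s (l₂.prod * x)) :
    cross (gt ^ m * h) l.prod x = 0 := by
  induction l with
  | nil => simp [cross_one]
  | cons s l ih =>
    rw [List.prod_cons, cross_mul, ih, add_zero]
    · exact cross_letter hc hm hh (hx [s] l rfl) (hl s List.mem_cons_self)
        (hcr [] s l rfl)
    · exact fun s' hs' => hl s' (List.mem_cons_of_mem _ hs')
    · intro l₁ l₂ h'
      exact hx (s :: l₁) l₂ (by rw [h']; rfl)
    · intro l₁ s' l₂ h'
      exact hcr (s :: l₁) s' l₂ (by rw [h']; rfl)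

end

/-- The bridging property of `zel m` for all large `m`. -/
theorem exists_bridging {W : Set F2} (hW : W.Finite) (N : ℕ) :
    ∃ M : ℕ, ∀ m ≥ M, Bridging W N (zel m) ∧ zel m ∉ W ∧ (zel m)⁻¹ ∉ W ∧ zel m ≠ 1 ∧
      zel m ≠ (zel m)⁻¹ := by
  obtain ⟨c, hc⟩ := exists_far_finite hW
  refine ⟨2 * (N * c) + c + 1, fun m hm => ⟨?_, ?_, ?_, ?_, ?_⟩⟩
  · intro g hg
    -- the lists under consideration
    by_cases hex : ∃ n, n ≤ N ∧ ∃ l : List F2, l.length = n ∧
        (∀ s ∈ l, s ∈ W ∨ s = zel m ∨ s = (zel m)⁻¹) ∧ l.prod = g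
    swap
    · exact ⟨1, fun l hl hls hlg => absurd ⟨l.length, hl, l, rfl, hls, hlg⟩ hex⟩
    classical
    obtain ⟨hn, l, hlen, hls, hlg⟩ := Nat.find_spec hex
    have hmin : ∀ l' : List F2, (∀ s ∈ l', s ∈ W ∨ s = zel m ∨ s = (zel m)⁻¹) → l'.prod = g →
        l.length ≤ l'.length := by
      intro l' h1 h2
      rw [hlen]
      by_contra hlt
      rw [not_le] at hlt
      exact Nat.find_min hex hlt ⟨hlt.le.trans hn, l', rfl, h1, h2⟩
    rw [← hlen] at hn
    -- a new letter in the list
    have hnew : ∃ s ∈ l, s = zel m ∨ s = (zel m)⁻¹ := by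
      by_contra hno
      push Not at hno
      refine hg ⟨l, hn, fun s hs => ?_, hlg⟩
      rcases hls s hs with h | h | h
      · exact h
      · exact absurd h (hno s hs).1
      · exact absurd h (hno s hs).2
    obtain ⟨s, hsl, hs⟩ := hnew
    obtain ⟨l₁, l₂, rfl⟩ := List.append_of_mem hsl
    obtain ⟨h, hcr⟩ : ∃ h, Crosses (zel m) h s l₂.prod := by
      rcases hs with rfl | rfl
      · exact ⟨l₂.prod, Or.inl ⟨rfl, rfl⟩⟩
      · exact ⟨(zel m)⁻¹ * l₂.prod, Or.inr ⟨rfl, by simp⟩⟩
    have hmem1 : ∀ s' ∈ l₁, s' ∈ W ∨ s' = zel m ∨ s' = (zel m)⁻¹ := fun s' hs' =>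
      hls s' (by simp [hs'])
    have hmem2 : ∀ s' ∈ l₂, s' ∈ W ∨ s' = zel m ∨ s' = (zel m)⁻¹ := fun s' hs' =>
      hls s' (by simp [hs'])
    have hmems : s ∈ W ∨ s = zel m ∨ s = (zel m)⁻¹ := Or.inr hs
    have hcW : ∀ w ∈ W, |ht w| ≤ c := fun w hw => (hc w hw).1
    have hbound : ∀ l' : List F2, (∀ s ∈ l', s ∈ W ∨ s = zel m ∨ s = (zel m)⁻¹) →
        l'.length ≤ N → |ht l'.prod| ≤ ((N * c : ℕ) : ℤ) := by
      intro l' h1 h2
      refine (ht_word_le hcW h1).trans ?_
      push_cast
      have h3 : (l'.length : ℤ) ≤ N := by exact_mod_cast h2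
      exact mul_le_mul_of_nonneg_right h3 (Int.natCast_nonneg _)
    have hlens : l₁.length + 1 + l₂.length ≤ N := by
      have : (l₁ ++ s :: l₂).length = l₁.length + 1 + l₂.length := by simp; omega
      omega
    have hl2h : |ht l₂.prod| ≤ ((N * c : ℕ) : ℤ) := hbound l₂ hmem2 (by omega)
    have hh : |ht h| ≤ ((N * c : ℕ) : ℤ) := by
      rcases hcr.ends with ⟨h1, -⟩ | ⟨h1, -⟩
      · rw [← h1]; exact hl2h
      · have : ht h = ht l₂.prod := by rw [h1, ht_mul, ht_zel, zero_add]
        rw [this]; exact hl2h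
    have hprod : g = l₁.prod * (s * l₂.prod) := by rw [← hlg]; simp
    have hm1 : 2 * (N * c) + c < m := by omega
    -- no other crossings
    have hno2 : ∀ l₃ s' l₄, l₂ = l₃ ++ s' :: l₄ → ¬ Crosses (zel m) h s' (l₄.prod * 1) := by
      intro l₃ s' l₄ h2 hcr'
      rw [mul_one] at hcr'
      have hmem4 : ∀ s' ∈ l₄, s' ∈ W ∨ s' = zel m ∨ s' = (zel m)⁻¹ := fun s'' hs'' =>
        hmem2 s'' (by rw [h2]; simp [hs''])
      have hA : l₄.prod = l₂.prod → False := by
        intro h3
        have := hmin (l₁ ++ s :: l₄) (by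
          intro s'' hs''
          rw [List.mem_append, List.mem_cons] at hs''
          rcases hs'' with h4 | rfl | h4
          · exact hmem1 _ h4
          · exact hmems
          · exact hmem4 _ h4) (by
          rw [List.prod_append, List.prod_cons, h3, ← hprod])
        rw [h2] at this
        simp at this
        omega
      have hB : l₄.prod = s * l₂.prod → False := by
        intro h3
        have := hmin (l₁ ++ l₄) (by
          intro s'' hs''
          rw [List.mem_append] at hs''
          rcases hs'' with h4 | h4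
          · exact hmem1 _ h4
          · exact hmem4 _ h4) (by
          rw [List.prod_append, h3, ← hprod])
        rw [h2] at this
        simp at this
        omega
      rcases hcr.ends with ⟨e1, e2⟩ | ⟨e1, e2⟩ <;> rcases hcr'.ends with ⟨f1, f2⟩ | ⟨f1, f2⟩
      · exact hA (f1.trans e1.symm)
      · exact hB (f1.trans e2.symm)
      · exact hB (f1.trans e2.symm)
      · exact hA (f1.trans e1.symm)
    have hno1 : ∀ l₃ s' l₄, l₁ = l₃ ++ s' :: l₄ →
        ¬ Crosses (zel m) h s' (l₄.prod * (s * l₂.prod)) := by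
      intro l₃ s' l₄ h2 hcr'
      have hmem3 : ∀ s' ∈ l₃, s' ∈ W ∨ s' = zel m ∨ s' = (zel m)⁻¹ := fun s'' hs'' =>
        hmem1 s'' (by rw [h2]; simp [hs''])
      have hpr : g = l₃.prod * (s' * (l₄.prod * (s * l₂.prod))) := by
        rw [hprod, h2]; simp [mul_assoc]
      have hA : s' * (l₄.prod * (s * l₂.prod)) = l₂.prod → False := by
        intro h3
        have := hmin (l₃ ++ l₂) (by
          intro s'' hs''
          rw [List.mem_append] at hs''
          rcases hs'' with h4 | h4
          · exact hmem3 _ h4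
          · exact hmem2 _ h4) (by
          rw [List.prod_append, ← h3, ← hpr])
        rw [h2] at this
        simp at this
        omega
      have hB : s' * (l₄.prod * (s * l₂.prod)) = s * l₂.prod → False := by
        intro h3
        have := hmin (l₃ ++ s :: l₂) (by
          intro s'' hs''
          rw [List.mem_append, List.mem_cons] at hs''
          rcases hs'' with h4 | rfl | h4
          · exact hmem3 _ h4
          · exact hmems
          · exact hmem2 _ h4) (by
          rw [List.prod_append, List.prod_cons, ← h3, ← hpr])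
        rw [h2] at this
        simp at this
        omega
      rcases hcr.ends with ⟨e1, e2⟩ | ⟨e1, e2⟩ <;> rcases hcr'.ends with ⟨f1, f2⟩ | ⟨f1, f2⟩
      · exact hB (f2.trans e2.symm)
      · exact hA (f2.trans e1.symm)
      · exact hA (f2.trans e1.symm)
      · exact hB (f2.trans e2.symm)
    -- the crossing number of g
    have hval : cross (gt ^ m * h) g 1 ≠ 0 := by
      have e1 : cross (gt ^ m * h) g 1 = cross (gt ^ m * h) s l₂.prod := by
        rw [hprod, cross_mul, cross_mul, mul_one, mul_one]
        rw [cross_word hc hm1 hh l₁ hmem1 _ hno1]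
        · have h2 := cross_word hc hm1 hh l₂ hmem2 (x := 1) (by
            intro l₃ l₄ h3
            rw [mul_one]
            apply hbound
            · intro s' hs'
              exact hmem2 s' (by rw [h3]; simp [hs'])
            · rw [h3, List.length_append] at hlens; omega) hno2
          rw [h2]; ring
        · intro l₃ l₄ h3
          have : l₄.prod * (s * l₂.prod) = (l₄ ++ s :: l₂).prod := by simp
          rw [this]
          apply hbound
          · intro s' hs'
            rw [List.mem_append, List.mem_cons] at hs'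
            rcases hs' with h4 | rfl | h4
            · exact hmem1 s' (by rw [h3]; simp [h4])
            · exact hmems
            · exact hmem2 _ h4
          · rw [h3, List.length_append] at hlens
            simp; omega
      rw [e1]
      have hc0 : (0 : ℤ) ≤ c := Int.natCast_nonneg _
      have hm2 : 2 * ((N * c : ℕ) : ℤ) + c < m := by exact_mod_cast hm1
      have hp : ht (gt ^ m * h) = m + ht h := by rw [ht_mul, ht_gt_pow]
      rw [abs_le] at hh hl2h
      rcases hcr with ⟨rfl, h2⟩ | ⟨rfl, h2⟩
      · rw [cross_zel, h2, if_pos rfl, if_neg]; · norm_num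
        intro h'
        have := congrArg ht h'
        rw [hp, ht_mul, ht_zel] at this
        linarith
      · rw [cross_inv, cross_zel, h2, inv_mul_cancel_left, if_pos rfl, if_neg]; · norm_num
        intro h'
        have := congrArg ht h'
        rw [hp, ht_mul, ht_zel] at this
        linarith
    refine ⟨h, fun l' hl' hls' hlg' => ?_⟩
    by_contra hcon
    push Not at hcon
    apply hval
    rw [← hlg']
    apply cross_word hc hm1 hh l' hls'
    · intro l₃ l₄ h3
      rw [mul_one]
      apply hbound
      · intro s' hs'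
        exact hls' s' (by rw [h3]; simp [hs'])
      · rw [h3, List.length_append] at hl'; omega
    · intro l₃ s' l₄ h3 hcr'
      rw [mul_one] at hcr'
      have := hcon l₃ s' l₄ h3
      rcases hcr' with ⟨h4, h5⟩ | ⟨h4, h5⟩
      · exact this.1 h4 h5
      · exact this.2 h4 h5
  · intro hmem
    have h1 := (hc _ hmem).2 (gt ^ m) 1 (by
      rw [ht_one, ht_gt_pow]
      have : (c : ℤ) < m := by
        have : c < m := by omega
        exact_mod_cast this
      simpa using this)
    rw [cross_zel, mul_one, if_pos rfl, if_neg] at h1; · norm_num at h1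
    intro h'
    have := congrArg ht h'
    rw [ht_mul, ht_zel, ht_gt_pow, ht_one] at this
    omega
  · intro hmem
    have h1 := (hc _ hmem).2 (gt ^ m) (zel m) (by
      rw [ht_zel, ht_gt_pow]
      have : (c : ℤ) < m := by
        have : c < m := by omega
        exact_mod_cast this
      simpa using this)
    rw [cross_inv, inv_mul_cancel, cross_zel, mul_one, if_pos rfl, if_neg] at h1
    · norm_num at h1
    intro h'
    have := congrArg ht h'
    rw [ht_mul, ht_zel, ht_gt_pow, ht_one] at this
    omega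
  · exact zel_ne_one (by omega)
  · intro h1
    have h2 := cross_zel (gt ^ m) 1 m
    have h3 := cross_inv (gt ^ m) (zel m) 1
    rw [← h1, cross_zel, cross_zel, if_pos (mul_one _), if_neg, if_neg, if_neg] at h3
    · norm_num at h3
    · intro h'
      have := congrArg ht h'
      rw [ht_mul, ht_mul, ht_zel, ht_gt_pow, ht_one] at this
      omega
    · intro h'
      rw [mul_eq_left, mul_one] at h'
      exact zel_ne_one (by omega) h'
    · intro h'
      have := congrArg ht h'
      rw [ht_mul, ht_zel, ht_gt_pow, ht_one] at this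
      omega

end Pool.Agent.Work.MP_5a4e9f_an
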