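import Mathlib

/-!
# Lifts of circle maps
-/

namespace Pool.Agent.Work.MP_5a4e9f_an

open Set Filter Topology

/-- Bijections of the line commuting with the translation by one. -/
def DD : Subgroup (Equiv.Perm ℝ) where
  carrier := {F | ∀ x, F (x + 1) = F x + 1}
  mul_mem' := by
    intro F G hF hG x
    rw [Equiv.Perm.mul_apply, Equiv.Perm.mul_apply, hG x, hF (G x)]
  one_mem' := by intro x; simp
  inv_mem' := by
    intro F hF x
    have h : F (F⁻¹ x + 1) = F (F⁻¹ x) + 1 := hF (F⁻¹ x)
    have h2 : F (F⁻¹ x) = x := by simp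
    rw [h2] at h
    rw [← h]; simp

lemma DD.apply_add_one (F : DD) (x : ℝ) : (F : Equiv.Perm ℝ) (x + 1) = (F : Equiv.Perm ℝ) x + 1 :=
  F.2 x

lemma DD.apply_add_int (F : DD) (x : ℝ) (n : ℤ) :
    (F : Equiv.Perm ℝ) (x + n) = (F : Equiv.Perm ℝ) x + n := by
  induction n using Int.induction_on with
  | zero => simp
  | succ n ih =>
    push_cast at ih ⊢
    rw [← add_assoc, DD.apply_add_one, ih]; ring
  | pred n ih =>
    have h := DD.apply_add_one F (x + ((-(n : ℤ) - 1 : ℤ) : ℝ))
    have e : x + ((-(n : ℤ) - 1 : ℤ) : ℝ) + 1 = x + ((-(n : ℤ) : ℤ) : ℝ) := by push_cast; ring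
    rw [e, ih] at h
    push_cast at h ⊢
    linarith

/-- The self-map of the circle induced by a lift. -/
noncomputable def circMap (F : DD) : UnitAddCircle → UnitAddCircle :=
  Function.Periodic.lift (f := fun x : ℝ => (((F : Equiv.Perm ℝ) x : ℝ) : UnitAddCircle)) (c := 1)
    (fun x => by
      simp only
      rw [DD.apply_add_one, AddCircle.coe_add, AddCircle.coe_period, add_zero])

lemma circMap_coe (F : DD) (x : ℝ) :
    circMap F (x : UnitAddCircle) = (((F : Equiv.Perm ℝ) x : ℝ) : UnitAddCircle) := rfl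

/-- The homomorphism from lifts to bijections of the circle. -/
noncomputable def toCirc : DD →* Equiv.Perm UnitAddCircle where
  toFun F :=
    { toFun := circMap F
      invFun := circMap F⁻¹
      left_inv := by
        intro y
        induction y using QuotientAddGroup.induction_on with
        | H x =>
          rw [circMap_coe, circMap_coe]
          simp
      right_inv := by
        intro y
        induction y using QuotientAddGroup.induction_on with
        | H x =>
          rw [circMap_coe, circMap_coe]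
          simp }
  map_one' := by
    ext y
    induction y using QuotientAddGroup.induction_on with
    | H x => simp [circMap_coe]
  map_mul' F G := by
    ext y
    induction y using QuotientAddGroup.induction_on with
    | H x => simp [circMap_coe]

lemma toCirc_coe (F : DD) (x : ℝ) :
    toCirc F (x : UnitAddCircle) = (((F : Equiv.Perm ℝ) x : ℝ) : UnitAddCircle) := rfl

lemma continuous_circle_iff {β : Type*} [TopologicalSpace β] {f : UnitAddCircle → β} :
    Continuous f ↔ Continuous fun x : ℝ => f (x : UnitAddCircle) :=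
  isQuotientMap_quotient_mk'.continuous_iff

lemma continuous_toCirc (F : DD) (hF : Continuous (F : Equiv.Perm ℝ)) :
    Continuous (toCirc F) := by
  rw [continuous_circle_iff]
  exact (AddCircle.continuous_mk' 1).comp hF

/-- Two continuous lifts of the same map differ by a constant. -/
lemma lifts_diff {F G : ℝ → ℝ} (hF : Continuous F) (hG : Continuous G)
    (h : ∀ x, (F x : UnitAddCircle) = (G x : UnitAddCircle)) : ∃ n : ℤ, ∀ x, F x = G x + n := by
  have h1 : ∀ x, ∃ n : ℤ, F x - G x = n := by
    intro x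
    have h2 := h x
    rw [← sub_eq_zero, ← AddCircle.coe_sub, AddCircle.coe_eq_zero_iff] at h2
    obtain ⟨n, hn⟩ := h2
    exact ⟨n, by rw [← hn]; simp⟩
  choose n hn using h1
  have hcont : Continuous fun x => ((n x : ℤ) : ℝ) := by
    have : (fun x => ((n x : ℤ) : ℝ)) = fun x => F x - G x := by
      ext x; exact (hn x).symm
    rw [this]; exact hF.sub hG
  have hcont' : Continuous n := Int.isClosedEmbedding_coe_real.isEmbedding.continuous_iff.2 hcont
  refine ⟨n 0, fun x => ?_⟩
  have h3 : n x = n 0 := PreconnectedSpace.constant inferInstance hcont'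
  rw [← h3, ← hn x]; ring

/-- The continuous function on the circle induced by a continuous periodic function. -/
noncomputable def perC (f : ℝ → ℝ) (hf : Continuous f) (hp : Function.Periodic f 1) :
    C(UnitAddCircle, ℝ) where
  toFun := hp.lift
  continuous_toFun := by
    rw [continuous_circle_iff]
    exact hf

lemma perC_coe (f : ℝ → ℝ) (hf : Continuous f) (hp : Function.Periodic f 1) (x : ℝ) :
    perC f hf hp (x : UnitAddCircle) = f x := rfl

/-- Smooth orientation preserving lifts. -/
structure GoodLift (F : Equiv.Perm ℝ) : Prop where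
  smooth : ContDiff ℝ 1 F
  smooth_symm : ContDiff ℝ 1 F.symm
  pos : ∀ x, 0 < deriv F x

lemma GoodLift.one : GoodLift 1 := by
  refine ⟨contDiff_id, contDiff_id, fun x => ?_⟩
  have : ((1 : Equiv.Perm ℝ) : ℝ → ℝ) = id := rfl
  rw [this]; simp

lemma GoodLift.mul {F G : Equiv.Perm ℝ} (hF : GoodLift F) (hG : GoodLift G) :
    GoodLift (F * G) := by
  refine ⟨hF.smooth.comp hG.smooth, hG.smooth_symm.comp hF.smooth_symm, fun x => ?_⟩
  have h1 : ((F * G : Equiv.Perm ℝ) : ℝ → ℝ) = F ∘ G := rfl
  rw [h1, deriv_comp _ (hF.smooth.differentiable one_ne_zero _)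
    (hG.smooth.differentiable one_ne_zero _)]
  exact mul_pos (hF.pos _) (hG.pos _)

lemma GoodLift.inv {F : Equiv.Perm ℝ} (hF : GoodLift F) : GoodLift F⁻¹ := by
  refine ⟨hF.smooth_symm, hF.smooth, fun y => ?_⟩
  have h1 : (F : ℝ → ℝ) ∘ (F⁻¹ : Equiv.Perm ℝ) = id := by ext x; simp
  have hd : DifferentiableAt ℝ (F⁻¹ : Equiv.Perm ℝ) y :=
    hF.smooth_symm.differentiable one_ne_zero y
  have h2 : deriv ((F : ℝ → ℝ) ∘ (F⁻¹ : Equiv.Perm ℝ)) y = 1 := by rw [h1]; simp
  rw [deriv_comp _ (hF.smooth.differentiable one_ne_zero _) hd] at h2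
  have h3 := hF.pos ((F⁻¹ : Equiv.Perm ℝ) y)
  by_contra hcon
  rw [not_lt] at hcon
  have := mul_nonpos_of_nonneg_of_nonpos h3.le hcon
  linarith

/-- A `C¹` bijection with `C¹` inverse commuting with the translation is orientation preserving. -/
lemma goodLift_of {F : DD} (h1 : ContDiff ℝ 1 (F : Equiv.Perm ℝ))
    (h2 : ContDiff ℝ 1 (F : Equiv.Perm ℝ).symm) : GoodLift (F : Equiv.Perm ℝ) := by
  refine ⟨h1, h2, ?_⟩
  have hne : ∀ x, deriv (F : Equiv.Perm ℝ) x ≠ 0 := by
    intro x h0
    have h3 : ((F : Equiv.Perm ℝ).symm : ℝ → ℝ) ∘ (F : Equiv.Perm ℝ) = id := by ext x; simp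
    have h4 : deriv (((F : Equiv.Perm ℝ).symm : ℝ → ℝ) ∘ (F : Equiv.Perm ℝ)) x = 1 := by
      rw [h3]; simp
    rw [deriv_comp _ (h2.differentiable one_ne_zero _) (h1.differentiable one_ne_zero _), h0] at h4
    simp at h4
  have hcont : Continuous (deriv (F : Equiv.Perm ℝ)) := h1.continuous_deriv le_rfl
  by_contra hcon
  push Not at hcon
  obtain ⟨x₀, hx₀⟩ := hcon
  have hneg : ∀ x, deriv (F : Equiv.Perm ℝ) x < 0 := by
    intro x
    by_contra hx
    rw [not_lt] at hx
    have := mem_range_of_exists_le_of_exists_ge hcont ⟨x₀, hx₀⟩ ⟨x, hx⟩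
    obtain ⟨y, hy⟩ := this
    exact hne y hy
  have hanti := strictAnti_of_deriv_neg hneg
  have h5 := hanti (show (0 : ℝ) < 0 + 1 by norm_num)
  rw [DD.apply_add_one] at h5
  linarith

end Pool.Agent.Work.MP_5a4e9f_an
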