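import Mathlib
import Pool.Agent.Work.MP_5a4e9f_an.Bridge
import Pool.Agent.Work.MP_5a4e9f_an.Lifts

/-!
# The base action of the free group on the circle

`t` is a rotation of infinite order, `a` is the projective action of `diag(1,5)`.
-/

namespace Pool.Agent.Work.MP_5a4e9f_an

open Set Filter Topology

/-- The matrix `M` sends the line of angle `π x` to the line of angle `π F(x)`. -/
def Rel (M : Matrix (Fin 2) (Fin 2) ℤ) (F : ℝ → ℝ) : Prop :=
  ∀ x, ∃ c : ℝ, 0 < c ∧
    (M 0 0 : ℝ) * Real.cos (Real.pi * x) + (M 0 1 : ℝ) * Real.sin (Real.pi * x) =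
      c * Real.cos (Real.pi * F x) ∧
    (M 1 0 : ℝ) * Real.cos (Real.pi * x) + (M 1 1 : ℝ) * Real.sin (Real.pi * x) =
      c * Real.sin (Real.pi * F x)

lemma Rel.one : Rel 1 id := by
  intro x
  exact ⟨1, one_pos, by simp, by simp⟩

lemma Rel.mul {M M' : Matrix (Fin 2) (Fin 2) ℤ} {F F' : ℝ → ℝ} (h : Rel M F) (h' : Rel M' F') :
    Rel (M * M') (F ∘ F') := by
  intro x
  obtain ⟨c, hc, h1, h2⟩ := h' x
  obtain ⟨d, hd, h3, h4⟩ := h (F' x)
  refine ⟨c * d, mul_pos hc hd, ?_, ?_⟩
  · simp only [Matrix.mul_apply, Fin.sum_univ_two, Function.comp]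
    push_cast
    linear_combination (M 0 0 : ℝ) * h1 + (M 0 1 : ℝ) * h2 + c * h3
  · simp only [Matrix.mul_apply, Fin.sum_univ_two, Function.comp]
    push_cast
    linear_combination (M 1 0 : ℝ) * h1 + (M 1 1 : ℝ) * h2 + c * h4

/-- Polar form. -/
lemma exists_polar {D : ℝ} (hD : 0 < D) (S : ℝ) : ∃ c : ℝ, 0 < c ∧
    c * Real.cos (Real.arctan (S / D)) = D ∧ c * Real.sin (Real.arctan (S / D)) = S := by
  have hpos : 0 < √(1 + (S / D) ^ 2) := Real.sqrt_pos.2 (by positivity)
  refine ⟨D * √(1 + (S / D) ^ 2), by positivity, ?_, ?_⟩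
  · rw [Real.cos_arctan]; field_simp
  · rw [Real.sin_arctan]; field_simp

/-- The lift of the projective action of `diag(1,5)` (`e = 1`) and of its inverse (`e = -1`). -/
noncomputable def hh (e x : ℝ) : ℝ :=
  x + Real.arctan (2 * e * Real.sin (2 * (Real.pi * x)) /
    (3 - 2 * e * Real.cos (2 * (Real.pi * x)))) / Real.pi

lemma hh_add_one (e x : ℝ) : hh e (x + 1) = hh e x + 1 := by
  unfold hh
  have h1 : 2 * (Real.pi * (x + 1)) = 2 * (Real.pi * x) + 2 * Real.pi := by ring
  rw [h1, Real.sin_add_two_pi, Real.cos_add_two_pi]; ring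

lemma hh_den_pos {e : ℝ} (he : |e| ≤ 1) (y : ℝ) : 0 < 3 - 2 * e * Real.cos y := by
  have h1 := Real.abs_cos_le_one y
  have h2 : |e * Real.cos y| ≤ 1 := by
    rw [abs_mul]; exact mul_le_one₀ he (abs_nonneg _) h1
  have h3 := (abs_le.1 h2).2
  linarith

lemma hh_sub_lt (e x : ℝ) : |hh e x - x| < 1 / 2 := by
  unfold hh
  rw [add_sub_cancel_left, abs_div, abs_of_pos Real.pi_pos, div_lt_iff₀ Real.pi_pos, abs_lt]
  have h1 := Real.arctan_lt_pi_div_two (2 * e * Real.sin (2 * (Real.pi * x)) /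
    (3 - 2 * e * Real.cos (2 * (Real.pi * x))))
  have h2 := Real.neg_pi_div_two_lt_arctan (2 * e * Real.sin (2 * (Real.pi * x)) /
    (3 - 2 * e * Real.cos (2 * (Real.pi * x))))
  constructor <;> linarith

lemma contDiff_hh {e : ℝ} (he : |e| ≤ 1) : ContDiff ℝ 1 (hh e) := by
  unfold hh
  have h1 : ContDiff ℝ 1 fun x : ℝ => 2 * e * Real.sin (2 * (Real.pi * x)) := by fun_prop
  have h2 : ContDiff ℝ 1 fun x : ℝ => 3 - 2 * e * Real.cos (2 * (Real.pi * x)) := by fun_prop
  have h3 : ContDiff ℝ 1 fun x : ℝ => 2 * e * Real.sin (2 * (Real.pi * x)) /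
      (3 - 2 * e * Real.cos (2 * (Real.pi * x))) :=
    h1.div h2 (fun x => (hh_den_pos he _).ne')
  exact contDiff_id.add ((Real.contDiff_arctan.comp h3).div_const _)

lemma rel_hh_pos : Rel !![1, 0; 0, 5] (hh 1) := by
  intro x
  obtain ⟨c, hc, h1, h2⟩ := exists_polar (hh_den_pos (e := 1) (by simp) (2 * (Real.pi * x)))
    (2 * 1 * Real.sin (2 * (Real.pi * x)))
  have e1 : Real.pi * hh 1 x = Real.pi * x + Real.arctan (2 * 1 * Real.sin (2 * (Real.pi * x)) /
      (3 - 2 * 1 * Real.cos (2 * (Real.pi * x)))) := by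
    unfold hh
    have := Real.pi_ne_zero
    field_simp
  refine ⟨c, hc, ?_, ?_⟩
  · rw [e1, Real.cos_add]
    have h3 : c * (Real.cos (Real.pi * x) * Real.cos (Real.arctan (2 * 1 *
        Real.sin (2 * (Real.pi * x)) / (3 - 2 * 1 * Real.cos (2 * (Real.pi * x))))) -
        Real.sin (Real.pi * x) * Real.sin (Real.arctan (2 * 1 *
        Real.sin (2 * (Real.pi * x)) / (3 - 2 * 1 * Real.cos (2 * (Real.pi * x)))))) =
        Real.cos (Real.pi * x) * (3 - 2 * 1 * Real.cos (2 * (Real.pi * x))) -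
        Real.sin (Real.pi * x) * (2 * 1 * Real.sin (2 * (Real.pi * x))) := by
      linear_combination Real.cos (Real.pi * x) * h1 - Real.sin (Real.pi * x) * h2
    rw [h3, Real.cos_two_mul, Real.sin_two_mul]
    simp
    have h4 := Real.sin_sq_add_cos_sq (Real.pi * x)
    linear_combination (4 * Real.cos (Real.pi * x)) * h4
  · rw [e1, Real.sin_add]
    have h3 : c * (Real.sin (Real.pi * x) * Real.cos (Real.arctan (2 * 1 *
        Real.sin (2 * (Real.pi * x)) / (3 - 2 * 1 * Real.cos (2 * (Real.pi * x))))) +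
        Real.cos (Real.pi * x) * Real.sin (Real.arctan (2 * 1 *
        Real.sin (2 * (Real.pi * x)) / (3 - 2 * 1 * Real.cos (2 * (Real.pi * x)))))) =
        Real.sin (Real.pi * x) * (3 - 2 * 1 * Real.cos (2 * (Real.pi * x))) +
        Real.cos (Real.pi * x) * (2 * 1 * Real.sin (2 * (Real.pi * x))) := by
      linear_combination Real.sin (Real.pi * x) * h1 + Real.cos (Real.pi * x) * h2
    rw [h3, Real.cos_two_mul, Real.sin_two_mul]
    simp
    ring

lemma rel_hh_neg : Rel !![5, 0; 0, 1] (hh (-1)) := by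
  intro x
  obtain ⟨c, hc, h1, h2⟩ := exists_polar (hh_den_pos (e := -1) (by simp) (2 * (Real.pi * x)))
    (2 * (-1) * Real.sin (2 * (Real.pi * x)))
  have e1 : Real.pi * hh (-1) x = Real.pi * x + Real.arctan (2 * (-1) *
      Real.sin (2 * (Real.pi * x)) / (3 - 2 * (-1) * Real.cos (2 * (Real.pi * x)))) := by
    unfold hh
    have := Real.pi_ne_zero
    field_simp
  refine ⟨c, hc, ?_, ?_⟩
  · rw [e1, Real.cos_add]
    have h3 : c * (Real.cos (Real.pi * x) * Real.cos (Real.arctan (2 * (-1) *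
        Real.sin (2 * (Real.pi * x)) / (3 - 2 * (-1) * Real.cos (2 * (Real.pi * x))))) -
        Real.sin (Real.pi * x) * Real.sin (Real.arctan (2 * (-1) *
        Real.sin (2 * (Real.pi * x)) / (3 - 2 * (-1) * Real.cos (2 * (Real.pi * x)))))) =
        Real.cos (Real.pi * x) * (3 - 2 * (-1) * Real.cos (2 * (Real.pi * x))) -
        Real.sin (Real.pi * x) * (2 * (-1) * Real.sin (2 * (Real.pi * x))) := by
      linear_combination Real.cos (Real.pi * x) * h1 - Real.sin (Real.pi * x) * h2
    rw [h3, Real.cos_two_mul, Real.sin_two_mul]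
    simp
    have h4 := Real.sin_sq_add_cos_sq (Real.pi * x)
    linear_combination (-4 * Real.cos (Real.pi * x)) * h4
  · rw [e1, Real.sin_add]
    have h3 : c * (Real.sin (Real.pi * x) * Real.cos (Real.arctan (2 * (-1) *
        Real.sin (2 * (Real.pi * x)) / (3 - 2 * (-1) * Real.cos (2 * (Real.pi * x))))) +
        Real.cos (Real.pi * x) * Real.sin (Real.arctan (2 * (-1) *
        Real.sin (2 * (Real.pi * x)) / (3 - 2 * (-1) * Real.cos (2 * (Real.pi * x)))))) =
        Real.sin (Real.pi * x) * (3 - 2 * (-1) * Real.cos (2 * (Real.pi * x))) +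
        Real.cos (Real.pi * x) * (2 * (-1) * Real.sin (2 * (Real.pi * x))) := by
      linear_combination Real.sin (Real.pi * x) * h1 + Real.cos (Real.pi * x) * h2
    rw [h3, Real.cos_two_mul, Real.sin_two_mul]
    simp
    ring

/-- Points of distance less than one on the same line are equal. -/
lemma eq_of_sin {x y : ℝ} (h : Real.sin (Real.pi * x - Real.pi * y) = 0) (hlt : |x - y| < 1) :
    x = y := by
  rw [Real.sin_eq_zero_iff] at h
  obtain ⟨n, hn⟩ := h
  have h1 : x - y = n := by
    have := Real.pi_ne_zero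
    have h2 : Real.pi * (x - y) = Real.pi * n := by linarith
    exact mul_left_cancel₀ this h2
  rw [h1] at hlt
  have h3 : |n| < 1 := by exact_mod_cast hlt
  have h4 : n = 0 := Int.abs_lt_one_iff.1 h3
  rw [h4] at h1
  simp at h1
  linarith

lemma hh_hh {M M' : Matrix (Fin 2) (Fin 2) ℤ} {e e' : ℝ} (h : Rel M (hh e)) (h' : Rel M' (hh e'))
    (hMM : M * M' = !![5, 0; 0, 5]) (x : ℝ) : hh e (hh e' x) = x := by
  obtain ⟨c, hc, h1, h2⟩ := h.mul h' x
  rw [hMM] at h1 h2
  simp at h1 h2
  apply eq_of_sin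
  · rw [Real.sin_sub]
    have : c * (Real.sin (Real.pi * hh e (hh e' x)) * Real.cos (Real.pi * x) -
        Real.cos (Real.pi * hh e (hh e' x)) * Real.sin (Real.pi * x)) = 0 := by
      linear_combination Real.sin (Real.pi * x) * h1 - Real.cos (Real.pi * x) * h2
    exact (mul_eq_zero.1 this).resolve_left hc.ne'
  · have h3 := hh_sub_lt e (hh e' x)
    have h4 := hh_sub_lt e' x
    have h5 := abs_add_le (hh e (hh e' x) - hh e' x) (hh e' x - x)
    have h6 : hh e (hh e' x) - hh e' x + (hh e' x - x) = hh e (hh e' x) - x := by ring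
    rw [h6] at h5
    linarith

/-- The lift of the generator `a`. -/
noncomputable def liftA : DD :=
  ⟨{ toFun := hh 1
     invFun := hh (-1)
     left_inv := hh_hh rel_hh_neg rel_hh_pos (by simp)
     right_inv := hh_hh rel_hh_pos rel_hh_neg (by simp) }, fun x => hh_add_one 1 x⟩

/-- The rotation angle. -/
noncomputable def alpha : ℝ := Real.arccos (3 / 5) / Real.pi

/-- The lift of the generator `t`. -/
noncomputable def liftT : DD :=
  ⟨Equiv.addRight alpha, fun x => by simp [Equiv.addRight]; ring⟩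

lemma liftA_apply (x : ℝ) : (liftA : Equiv.Perm ℝ) x = hh 1 x := rfl
lemma liftA_inv_apply (x : ℝ) : ((liftA⁻¹ : DD) : Equiv.Perm ℝ) x = hh (-1) x := rfl
lemma liftT_apply (x : ℝ) : (liftT : Equiv.Perm ℝ) x = x + alpha := rfl
lemma liftT_inv_apply (x : ℝ) : ((liftT⁻¹ : DD) : Equiv.Perm ℝ) x = x + -alpha := rfl

lemma cos_alpha : Real.cos (Real.pi * alpha) = 3 / 5 := by
  have h : Real.pi * alpha = Real.arccos (3 / 5) := by
    unfold alpha; have := Real.pi_ne_zero; field_simp
  rw [h, Real.cos_arccos] <;> norm_num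

lemma sin_alpha : Real.sin (Real.pi * alpha) = 4 / 5 := by
  have h : Real.pi * alpha = Real.arccos (3 / 5) := by
    unfold alpha; have := Real.pi_ne_zero; field_simp
  rw [h, Real.sin_arccos]
  rw [show (1 : ℝ) - (3 / 5) ^ 2 = (4 / 5) ^ 2 by norm_num]
  exact Real.sqrt_sq (by norm_num)

lemma rel_T : Rel !![3, -4; 4, 3] (fun x => x + alpha) := by
  intro x
  refine ⟨5, by norm_num, ?_, ?_⟩
  · rw [mul_add, Real.cos_add, cos_alpha, sin_alpha]; simp; ring
  · rw [mul_add, Real.sin_add, cos_alpha, sin_alpha]; simp; ring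

lemma rel_T_inv : Rel !![3, 4; -4, 3] (fun x => x + -alpha) := by
  intro x
  refine ⟨5, by norm_num, ?_, ?_⟩
  · rw [mul_add, mul_neg, Real.cos_add, Real.cos_neg, Real.sin_neg, cos_alpha, sin_alpha]; simp; ring
  · rw [mul_add, mul_neg, Real.sin_add, Real.cos_neg, Real.sin_neg, cos_alpha, sin_alpha]; simp; ring

lemma good_A : GoodLift (liftA : Equiv.Perm ℝ) :=
  goodLift_of (contDiff_hh (by simp)) (contDiff_hh (by simp))

lemma good_T : GoodLift (liftT : Equiv.Perm ℝ) := by
  apply goodLift_of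
  · exact contDiff_id.add contDiff_const
  · exact contDiff_id.add contDiff_const

/-- The lifted action of the free group. -/
noncomputable def lft : F2 →* DD := FreeGroup.lift (fun b => if b then liftA else liftT)

lemma lft_ga : lft ga = liftA := by simp [lft, ga]
lemma lft_gt : lft gt = liftT := by simp [lft, gt]

lemma good_lft (g : F2) : GoodLift (lft g : Equiv.Perm ℝ) := by
  induction g using FreeGroup.induction_on with
  | C1 => rw [map_one]; exact GoodLift.one
  | of b =>
    cases b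
    · exact lft_gt ▸ good_T
    · exact lft_ga ▸ good_A
  | inv_of b ih => rw [map_inv]; exact ih.inv
  | mul g h ihg ihh => rw [map_mul]; exact ihg.mul ihh

/-- The integer matrix of a letter. -/
def matL : Bool × Bool → Matrix (Fin 2) (Fin 2) ℤ
  | (true, true) => !![1, 0; 0, 5]
  | (true, false) => !![5, 0; 0, 1]
  | (false, true) => !![3, -4; 4, 3]
  | (false, false) => !![3, 4; -4, 3]

/-- The integer matrix of a word. -/
def matW (L : List (Bool × Bool)) : Matrix (Fin 2) (Fin 2) ℤ := (L.map matL).prod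

lemma rel_mk (L : List (Bool × Bool)) : Rel (matW L) (lft (FreeGroup.mk L) : Equiv.Perm ℝ) := by
  induction L with
  | nil =>
    have h1 : lft (FreeGroup.mk []) = 1 := by
      rw [← FreeGroup.one_eq_mk, map_one]
    rw [h1]
    exact Rel.one
  | cons s L ih =>
    have h1 : (FreeGroup.mk (s :: L) : F2) = FreeGroup.mk [s] * FreeGroup.mk L := by
      rw [FreeGroup.mul_mk]; rfl
    have h2 : Rel (matL s) (lft (FreeGroup.mk [s]) : Equiv.Perm ℝ) := by
      obtain ⟨b, c⟩ := s
      cases b <;> cases c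
      · have e : lft (FreeGroup.mk [(false, false)]) = liftT⁻¹ := by
          rw [← lft_gt, ← map_inv]; rfl
        rw [e]; exact rel_T_inv
      · have e : lft (FreeGroup.mk [(false, true)]) = liftT := by
          rw [← lft_gt]; rfl
        rw [e]; exact rel_T
      · have e : lft (FreeGroup.mk [(true, false)]) = liftA⁻¹ := by
          rw [← lft_ga, ← map_inv]; rfl
        rw [e]; exact rel_hh_neg
      · have e : lft (FreeGroup.mk [(true, true)]) = liftA := by
          rw [← lft_ga]; rfl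
        rw [e]; exact rel_hh_pos
    rw [h1, map_mul]
    exact h2.mul ih

end Pool.Agent.Work.MP_5a4e9f_an
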