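import Mathlib
import Pool.Agent.Work.MP_5a4e9f_an.Base

/-!
# Faithfulness: nontrivial elements have finitely many fixed points
-/

namespace Pool.Agent.Work.MP_5a4e9f_an

open Set Filter Topology

/-- Column directions mod 5. -/
def iv : Bool × Bool → Fin 2 → ZMod 5
  | (true, true) => ![1, 0]
  | (true, false) => ![0, 1]
  | (false, true) => ![1, 3]
  | (false, false) => ![1, 2]

/-- Row functionals mod 5. -/
def kv : Bool × Bool → Fin 2 → ZMod 5
  | (true, true) => ![1, 0]
  | (true, false) => ![0, 1]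
  | (false, true) => ![3, 1]
  | (false, false) => ![3, 4]

lemma matL_mod (s : Bool × Bool) (i j : Fin 2) :
    ((matL s i j : ℤ) : ZMod 5) = iv s i * kv s j := by
  revert s i j; decide

lemma kv_iv (s s' : Bool × Bool) (h : s.1 = s'.1 → s.2 = s'.2) :
    kv s 0 * iv s' 0 + kv s 1 * iv s' 1 ≠ 0 := by
  revert s s'; decide

lemma matW_mod (L : List (Bool × Bool)) (s : Bool × Bool) (h : FreeGroup.IsReduced (s :: L)) :
    ∃ s' : Bool × Bool, ∃ c : ZMod 5, c ≠ 0 ∧
      ∀ i j : Fin 2, ((matW (s :: L) i j : ℤ) : ZMod 5) = c * iv s i * kv s' j := by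
  induction L generalizing s with
  | nil =>
    refine ⟨s, 1, by decide, fun i j => ?_⟩
    have : matW [s] = matL s := by simp [matW]
    rw [this, matL_mod, one_mul]
  | cons s₂ L ih =>
    rw [FreeGroup.isReduced_cons_cons] at h
    obtain ⟨s', c, hc, h2⟩ := ih s₂ h.2
    have h3 := kv_iv s s₂ h.1
    have : Fact (Nat.Prime 5) := ⟨by norm_num⟩
    refine ⟨s', (kv s 0 * iv s₂ 0 + kv s 1 * iv s₂ 1) * c, mul_ne_zero h3 hc, fun i j => ?_⟩
    have h4 : matW (s :: s₂ :: L) = matL s * matW (s₂ :: L) := by simp [matW]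
    rw [h4, Matrix.mul_apply, Fin.sum_univ_two]
    push_cast
    rw [matL_mod, matL_mod, h2, h2]
    ring

lemma not_scalar_mod (s s' : Bool × Bool) (c : ZMod 5) (hc : c ≠ 0) :
    ¬ (c * iv s 0 * kv s' 1 = 0 ∧ c * iv s 1 * kv s' 0 = 0 ∧
      c * iv s 0 * kv s' 0 = c * iv s 1 * kv s' 1) := by
  revert s s' c; decide

lemma matW_not_scalar {L : List (Bool × Bool)} (hL : L ≠ []) (h : FreeGroup.IsReduced L) :
    ¬ (matW L 0 1 = 0 ∧ matW L 1 0 = 0 ∧ matW L 0 0 = matW L 1 1) := by
  cases L with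
  | nil => exact absurd rfl hL
  | cons s L =>
    obtain ⟨s', c, hc, h2⟩ := matW_mod L s h
    rintro ⟨h3, h4, h5⟩
    apply not_scalar_mod s s' c hc
    rw [← h2, ← h2, ← h2, ← h2, h3, h4, h5]
    simp

/-- The fixed points of a nonscalar matrix. -/
lemma finite_fixed {M : Matrix (Fin 2) (Fin 2) ℤ} {F : DD} (h : Rel M (F : Equiv.Perm ℝ))
    (hM : ¬ (M 0 1 = 0 ∧ M 1 0 = 0 ∧ M 0 0 = M 1 1)) :
    {x : UnitAddCircle | toCirc F x = x}.Finite := by
  -- the polynomial
  set p : ℝ := M 1 0 + M 0 1 with hp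
  set q : ℝ := M 1 1 - M 0 0 with hq
  set r : ℝ := M 1 0 - M 0 1 with hr
  set P : Polynomial ℂ := Polynomial.C ((p : ℂ) - q * Complex.I) * Polynomial.X ^ 2 +
    Polynomial.C (2 * (r : ℂ)) * Polynomial.X + Polynomial.C ((p : ℂ) + q * Complex.I) with hP
  have hP0 : P ≠ 0 := by
    intro h0
    have c2 : P.coeff 2 = (p : ℂ) - q * Complex.I := by
      rw [hP]
      simp only [Polynomial.coeff_add, Polynomial.coeff_C_mul, Polynomial.coeff_X_pow,
        Polynomial.coeff_X, Polynomial.coeff_C]
      norm_num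
    have c1 : P.coeff 1 = 2 * (r : ℂ) := by
      rw [hP]
      simp only [Polynomial.coeff_add, Polynomial.coeff_C_mul, Polynomial.coeff_X_pow,
        Polynomial.coeff_X, Polynomial.coeff_C]
      norm_num
    rw [h0] at c2 c1
    simp at c1 c2
    have h1 := congrArg Complex.re c2
    have h2 := congrArg Complex.im c2
    simp at h1 h2
    apply hM
    have h3 : (M 1 0 : ℝ) = 0 := by
      have : (M 1 0 : ℝ) + M 0 1 = 0 := by rw [← hp]; exact h1.symm
      have : (M 1 0 : ℝ) - M 0 1 = 0 := by rw [← hr]; exact c1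
      linarith
    have h4 : (M 0 1 : ℝ) = 0 := by
      have : (M 1 0 : ℝ) - M 0 1 = 0 := by rw [← hr]; exact c1
      linarith
    have h5 : (M 0 0 : ℝ) = M 1 1 := by
      have : (M 1 1 : ℝ) - M 0 0 = 0 := by rw [← hq]; exact h2
      linarith
    exact ⟨by exact_mod_cast h4, by exact_mod_cast h3, by exact_mod_cast h5⟩
  have hfin := Polynomial.finite_setOfPred_isRoot hP0
  have hinj : Function.Injective (fun x : UnitAddCircle => ((AddCircle.toCircle x : Circle) : ℂ)) :=
    Circle.coe_injective.comp (AddCircle.injective_toCircle one_ne_zero)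
  refine (hfin.preimage hinj.injOn).subset ?_
  intro x hx
  induction x using QuotientAddGroup.induction_on with
  | H u =>
    have hx' : (((F : Equiv.Perm ℝ) u : ℝ) : UnitAddCircle) = (u : UnitAddCircle) := hx
    rw [← sub_eq_zero, ← AddCircle.coe_sub, AddCircle.coe_eq_zero_iff] at hx'
    obtain ⟨n, hn⟩ := hx'
    have hsin : Real.sin (Real.pi * (F : Equiv.Perm ℝ) u - Real.pi * u) = 0 := by
      rw [Real.sin_eq_zero_iff]
      refine ⟨n, ?_⟩
      have : (F : Equiv.Perm ℝ) u - u = n := by rw [← hn]; simp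
      rw [← mul_sub, this]; ring
    obtain ⟨c, hc, h1, h2⟩ := h u
    rw [Real.sin_sub] at hsin
    have h3 : (M 1 0 : ℝ) * Real.cos (Real.pi * u) ^ 2 +
        (M 1 1 - M 0 0) * (Real.sin (Real.pi * u) * Real.cos (Real.pi * u)) -
        M 0 1 * Real.sin (Real.pi * u) ^ 2 = 0 := by
      linear_combination Real.cos (Real.pi * u) * h2 - Real.sin (Real.pi * u) * h1 + c * hsin
    have h4 : r + p * Real.cos (2 * (Real.pi * u)) + q * Real.sin (2 * (Real.pi * u)) = 0 := by
      rw [Real.cos_two_mul, Real.sin_two_mul]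
      have h5 := Real.sin_sq_add_cos_sq (Real.pi * u)
      rw [hr, hp, hq]
      linear_combination 2 * h3 + 2 * (M 0 1 : ℝ) * h5
    have h6 : ((AddCircle.toCircle (u : UnitAddCircle) : Circle) : ℂ) =
        Complex.exp ((2 * (Real.pi * u) : ℝ) * Complex.I) := by
      rw [AddCircle.toCircle_apply_mk, Circle.coe_exp]
      congr 2
      push_cast; ring
    suffices hs : P.IsRoot ((AddCircle.toCircle (u : UnitAddCircle) : Circle) : ℂ) from hs
    rw [Polynomial.IsRoot, hP, h6]
    simp only [Polynomial.eval_add, Polynomial.eval_mul, Polynomial.eval_C, Polynomial.eval_pow,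
      Polynomial.eval_X]
    rw [Complex.exp_mul_I, ← Complex.ofReal_cos, ← Complex.ofReal_sin]
    set cc := Real.cos (2 * (Real.pi * u))
    set ss := Real.sin (2 * (Real.pi * u))
    have h8 : ss ^ 2 + cc ^ 2 = 1 := Real.sin_sq_add_cos_sq _
    have h8' : (ss : ℂ) ^ 2 + (cc : ℂ) ^ 2 = 1 := by exact_mod_cast h8
    have h4' : (r : ℂ) + p * cc + q * ss = 0 := by exact_mod_cast h4
    have hI : Complex.I ^ 2 = -1 := Complex.I_sq
    linear_combination (2 * ((cc : ℂ) + ss * Complex.I)) * h4' +
      ((p : ℂ) * (-1) + q * Complex.I * (-1)) * h8' +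
      (p * (ss : ℂ) ^ 2 - 2 * q * cc * ss - q * Complex.I * (ss : ℂ) ^ 2) * hI

/-- Nontrivial elements have finitely many fixed points on the circle. -/
theorem finite_fixed_of_ne_one {g : F2} (hg : g ≠ 1) :
    {x : UnitAddCircle | toCirc (lft g) x = x}.Finite := by
  have h1 : lft g = lft (FreeGroup.mk g.toWord) := by rw [FreeGroup.mk_toWord]
  have h2 := rel_mk g.toWord
  rw [← h1] at h2
  refine finite_fixed h2 (matW_not_scalar ?_ FreeGroup.isReduced_toWord)
  rwa [Ne, FreeGroup.toWord_eq_nil_iff]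

lemma half_ne_zero' : ((1 / 2 : ℝ) : UnitAddCircle) ≠ 0 := by
  intro h
  rw [AddCircle.coe_eq_zero_iff] at h
  obtain ⟨n, hn⟩ := h
  simp at hn
  have h2 : ((2 * n : ℤ) : ℝ) = ((1 : ℤ) : ℝ) := by push_cast; linarith
  have h3 : 2 * n = 1 := by exact_mod_cast h2
  omega

instance nontrivial_circle : Nontrivial UnitAddCircle := ⟨_, _, half_ne_zero'⟩

instance nullSingleton_circle :
    MeasureTheory.NullSingletonClass (MeasureTheory.volume : MeasureTheory.Measure UnitAddCircle) :=
  inferInstance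

/-- Nonempty open subsets of the circle are uncountable. -/
lemma not_countable_of_isOpen (U : Set UnitAddCircle) (hU : IsOpen U) (hne : U.Nonempty) :
    ¬ U.Countable := fun h =>
  (hU.measure_pos MeasureTheory.volume hne).ne' (h.measure_zero MeasureTheory.volume)

/-- The rotation has infinite order. -/
theorem addOrderOf_alpha : addOrderOf (alpha : UnitAddCircle) = 0 := by
  rw [addOrderOf_eq_zero_iff']
  intro n hn h0
  have h1 : gt ^ n ≠ 1 := by
    intro h
    have := congrArg ht h
    rw [ht_gt_pow, ht_one] at this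
    omega
  have h2 := finite_fixed_of_ne_one h1
  have h3 : ∀ m : ℕ, ∀ x : ℝ, (lft (gt ^ m) : Equiv.Perm ℝ) x = x + m * alpha := by
    intro m
    induction m with
    | zero => intro x; simp
    | succ k ih =>
      intro x
      have h4 : lft (gt ^ (k + 1)) = lft (gt ^ k) * liftT := by rw [pow_succ, map_mul, lft_gt]
      rw [h4, Subgroup.coe_mul, Equiv.Perm.mul_apply, liftT_apply, ih]
      push_cast; ring
  have h5 : {x : UnitAddCircle | toCirc (lft (gt ^ n)) x = x} = univ := by
    ext y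
    simp only [mem_univ, iff_true]
    induction y using QuotientAddGroup.induction_on with
    | H x =>
      suffices hs : toCirc (lft (gt ^ n)) (x : UnitAddCircle) = (x : UnitAddCircle) from hs
      rw [toCirc_coe, h3, AddCircle.coe_add]
      have : ((n * alpha : ℝ) : UnitAddCircle) = n • (alpha : UnitAddCircle) := by
        rw [← nsmul_eq_mul, AddCircle.coe_nsmul]
      rw [this, h0, add_zero]
  rw [h5] at h2
  exact not_countable_of_isOpen univ isOpen_univ ⟨0, mem_univ _⟩ h2.countable

end Pool.Agent.Work.MP_5a4e9f_an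

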