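import Mathlib
import Pool.Agent.Work.MP_5a4e9f_an.Free

/-!
# The action on the circle, its derivative cocycle, and the choice of the new letters
-/

namespace Pool.Agent.Work.MP_5a4e9f_an

open Set Filter Topology

/-- The action of the free group on the circle. -/
noncomputable instance actionF2 : MulAction F2 UnitAddCircle :=
  MulAction.compHom UnitAddCircle (toCirc.comp lft)

lemma smul_eq (g : F2) (x : UnitAddCircle) : g • x = toCirc (lft g) x := rfl

lemma smul_coe (g : F2) (x : ℝ) :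
    g • (x : UnitAddCircle) = (((lft g : Equiv.Perm ℝ) x : ℝ) : UnitAddCircle) := rfl

instance contSMulF2 : ContinuousConstSMul F2 UnitAddCircle :=
  ⟨fun g => continuous_toCirc (lft g) (good_lft g).smooth.continuous⟩

lemma finite_fixed_smul {g : F2} (hg : g ≠ 1) : {x : UnitAddCircle | g • x = x}.Finite :=
  finite_fixed_of_ne_one hg

lemma deriv_periodic (F : DD) : Function.Periodic (deriv (F : Equiv.Perm ℝ)) 1 := by
  intro x
  rw [← deriv_comp_add_const]
  have h1 : (fun y => (F : Equiv.Perm ℝ) (y + 1)) = fun y => (F : Equiv.Perm ℝ) y + 1 := by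
    ext y; exact DD.apply_add_one F y
  rw [h1, deriv_add_const]

/-- The logarithm of the derivative. -/
noncomputable def lam (g : F2) : C(UnitAddCircle, ℝ) :=
  perC (fun x => Real.log (deriv (lft g : Equiv.Perm ℝ) x))
    (((good_lft g).smooth.continuous_deriv le_rfl).log (fun x => ((good_lft g).pos x).ne'))
    (fun x => by simp only; rw [deriv_periodic])

lemma lam_coe (g : F2) (x : ℝ) :
    lam g (x : UnitAddCircle) = Real.log (deriv (lft g : Equiv.Perm ℝ) x) := rfl

lemma exp_lam_coe (g : F2) (x : ℝ) :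
    Real.exp (lam g (x : UnitAddCircle)) = deriv (lft g : Equiv.Perm ℝ) x := by
  rw [lam_coe, Real.exp_log ((good_lft g).pos x)]

lemma lam_mul (g h : F2) (x : UnitAddCircle) : lam (g * h) x = lam g (h • x) + lam h x := by
  induction x using QuotientAddGroup.induction_on with
  | H u =>
    suffices hs : lam (g * h) (u : UnitAddCircle) = lam g (h • (u : UnitAddCircle)) +
      lam h (u : UnitAddCircle) from hs
    rw [lam_coe, smul_coe, lam_coe, lam_coe]
    have h1 : ((lft (g * h) : Equiv.Perm ℝ) : ℝ → ℝ) =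
        (lft g : Equiv.Perm ℝ) ∘ (lft h : Equiv.Perm ℝ) := by
      rw [map_mul]; rfl
    rw [h1, deriv_comp _ ((good_lft g).smooth.differentiable one_ne_zero _)
      ((good_lft h).smooth.differentiable one_ne_zero _),
      Real.log_mul ((good_lft g).pos _).ne' ((good_lft h).pos _).ne']

lemma lam_one (x : UnitAddCircle) : lam 1 x = 0 := by
  have := lam_mul 1 1 x
  rw [mul_one, one_smul] at this
  linarith

lemma lam_inv (g : F2) (x : UnitAddCircle) : lam g⁻¹ x = - lam g (g⁻¹ • x) := by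
  have := lam_mul g g⁻¹ x
  rw [mul_inv_cancel, lam_one] at this
  linarith

lemma lam_gt (x : UnitAddCircle) : lam gt x = 0 := by
  induction x using QuotientAddGroup.induction_on with
  | H u =>
    suffices hs : lam gt (u : UnitAddCircle) = 0 from hs
    rw [lam_coe, lft_gt]
    have : ((liftT : Equiv.Perm ℝ) : ℝ → ℝ) = fun x => x + alpha := rfl
    rw [this]
    simp

lemma lam_gt_pow (m : ℕ) (x : UnitAddCircle) : lam (gt ^ m) x = 0 := by
  induction m generalizing x with
  | zero => rw [pow_zero, lam_one]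
  | succ k ih => rw [pow_succ, lam_mul, lam_gt, ih, add_zero]

lemma gt_smul (x : UnitAddCircle) : gt • x = x + (alpha : UnitAddCircle) := by
  induction x using QuotientAddGroup.induction_on with
  | H u =>
    suffices hs : gt • (u : UnitAddCircle) = (u : UnitAddCircle) + (alpha : UnitAddCircle) from hs
    rw [smul_coe, lft_gt, liftT_apply, AddCircle.coe_add]

lemma gt_pow_smul (m : ℕ) (x : UnitAddCircle) :
    gt ^ m • x = x + m • (alpha : UnitAddCircle) := by
  induction m generalizing x with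
  | zero => simp
  | succ k ih => rw [pow_succ, mul_smul, ih, gt_smul, succ_nsmul]; abel

lemma dist_gt_pow_smul (m : ℕ) (x : UnitAddCircle) :
    dist (gt ^ m • x) x = ‖m • (alpha : UnitAddCircle)‖ := by
  rw [gt_pow_smul, dist_eq_norm, add_sub_cancel_left]

lemma dist_gt_pow_inv_smul (m : ℕ) (x : UnitAddCircle) :
    dist ((gt ^ m)⁻¹ • x) x = ‖m • (alpha : UnitAddCircle)‖ := by
  have h := dist_gt_pow_smul m ((gt ^ m)⁻¹ • x)
  rw [smul_inv_smul] at h
  rw [dist_comm, h]

/-- Arbitrarily large multiples of `α` are close to zero. -/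
lemma exists_close (M : ℕ) {δ : ℝ} (hδ : 0 < δ) :
    ∃ m ≥ M, ‖m • (alpha : UnitAddCircle)‖ < δ := by
  obtain ⟨n, hn⟩ := exists_nat_gt (((M : ℝ) + 1) / δ)
  have hn0 : 0 < n := by
    have : (0 : ℝ) < n := lt_of_le_of_lt (by positivity) hn
    exact_mod_cast this
  obtain ⟨j, hj1, hj2⟩ := AddCircle.exists_norm_nsmul_le (alpha : UnitAddCircle) hn0
  rw [mem_Icc] at hj1
  refine ⟨(M + 1) * j, by nlinarith [hj1.1], ?_⟩
  rw [mul_nsmul']
  have h1 : ‖(M + 1) • (j • (alpha : UnitAddCircle))‖ ≤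
      ((M + 1 : ℕ) : ℝ) * ‖j • (alpha : UnitAddCircle)‖ := norm_nsmul_le
  have h2 : (0 : ℝ) ≤ ((M + 1 : ℕ) : ℝ) := by positivity
  have h3 := mul_le_mul_of_nonneg_left hj2 h2
  refine lt_of_le_of_lt (h1.trans h3) ?_
  rw [div_lt_iff₀ hδ] at hn
  rw [mul_one_div, div_lt_iff₀ (by positivity)]
  push_cast
  nlinarith

lemma lam_zel (m : ℕ) (x : UnitAddCircle) :
    lam (zel m) x = lam ga (gt ^ m • x) - lam ga (zel m • x) := by
  have h1 : zel m • x = ga⁻¹ • (gt ^ m)⁻¹ • ga • gt ^ m • x := by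
    simp only [zel, mul_smul]
  have h2 : lam (zel m) x = lam ga⁻¹ ((gt ^ m)⁻¹ • ga • gt ^ m • x) +
      lam (gt ^ m)⁻¹ (ga • gt ^ m • x) + lam ga (gt ^ m • x) + lam (gt ^ m) x := by
    unfold zel
    rw [lam_mul, lam_mul, lam_mul]
  rw [h2, lam_inv, lam_inv, lam_gt_pow, lam_gt_pow, ← h1]
  ring

/-- The choice of the new letter. -/
theorem exists_letter {W : Set F2} (hW : W.Finite) (N : ℕ) (φ : C(UnitAddCircle, ℝ)) {ε : ℝ}
    (hε : 0 < ε) : ∃ z : F2, Bridging W N z ∧ z ∉ W ∧ z⁻¹ ∉ W ∧ z ≠ 1 ∧ z ≠ z⁻¹ ∧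
      (∀ x : UnitAddCircle, dist (z • x) x ≤ ε) ∧ (∀ x, |φ (z • x) - φ x| ≤ ε) ∧
      ∀ x, |lam z x| ≤ ε := by
  obtain ⟨M, hM⟩ := exists_bridging hW N
  have uφ := Metric.uniformContinuous_iff.1
    (CompactSpace.uniformContinuous_of_continuous φ.continuous)
  have ul := Metric.uniformContinuous_iff.1
    (CompactSpace.uniformContinuous_of_continuous (lam ga).continuous)
  have ua := Metric.uniformContinuous_iff.1
    (CompactSpace.uniformContinuous_of_continuous (continuous_const_smul (T := UnitAddCircle) ga))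
  have ua' := Metric.uniformContinuous_iff.1
    (CompactSpace.uniformContinuous_of_continuous (continuous_const_smul (T := UnitAddCircle) ga⁻¹))
  obtain ⟨δφ, hδφ, hφ⟩ := uφ ε hε
  obtain ⟨δl, hδl, hl⟩ := ul ε hε
  set η : ℝ := min ε (min δφ (δl / 2)) with hη
  have hη0 : 0 < η := lt_min hε (lt_min hδφ (half_pos hδl))
  obtain ⟨δ₁, hδ₁, h₁⟩ := ua' η hη0
  obtain ⟨δ₂, hδ₂, h₂⟩ := ua (δ₁ / 2) (half_pos hδ₁)
  obtain ⟨m, hm, hm2⟩ := exists_close M (lt_min (half_pos hδ₁) (lt_min hδ₂ (half_pos hδl)))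
  rw [lt_min_iff, lt_min_iff] at hm2
  obtain ⟨hB, hz1, hz2, hz3, hz4⟩ := hM m hm
  have hclose : ∀ x : UnitAddCircle, dist (zel m • x) x < η := by
    intro x
    have e1 : zel m • x = ga⁻¹ • (gt ^ m)⁻¹ • ga • gt ^ m • x := by
      simp only [zel, mul_smul]
    have e3 : dist (zel m • x) x =
        dist (ga⁻¹ • (gt ^ m)⁻¹ • ga • gt ^ m • x) (ga⁻¹ • ga • x) := by
      rw [e1, inv_smul_smul ga x]
    rw [e3]
    apply h₁
    calc dist ((gt ^ m)⁻¹ • ga • gt ^ m • x) (ga • x)
        ≤ dist ((gt ^ m)⁻¹ • ga • gt ^ m • x) (ga • gt ^ m • x) + dist (ga • gt ^ m • x) (ga • x) :=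
          dist_triangle _ _ _
      _ < δ₁ / 2 + δ₁ / 2 := by
          apply add_lt_add
          · rw [dist_gt_pow_inv_smul]; exact hm2.1
          · apply h₂
            rw [dist_gt_pow_smul]; exact hm2.2.1
      _ = δ₁ := by ring
  refine ⟨zel m, hB, hz1, hz2, hz3, hz4, ?_, ?_, ?_⟩
  · exact fun x => (hclose x).le.trans (min_le_left _ _)
  · intro x
    have h3 : dist (zel m • x) x < δφ :=
      (hclose x).trans_le ((min_le_right _ _).trans (min_le_left _ _))
    have := hφ h3
    rw [Real.dist_eq] at this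
    exact this.le
  · intro x
    rw [lam_zel]
    have h3 : dist (gt ^ m • x) (zel m • x) < δl := by
      have h4 := hclose x
      have h5 : η ≤ δl / 2 := (min_le_right _ _).trans (min_le_right _ _)
      have h6 := dist_gt_pow_smul m x
      have h7 := dist_triangle (gt ^ m • x) x (zel m • x)
      rw [dist_comm x] at h7
      linarith [hm2.2.2]
    have := hl h3
    rw [Real.dist_eq] at this
    exact this.le

end Pool.Agent.Work.MP_5a4e9f_an
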