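import Mathlib
import Pool.Agent.Work.MP_5a4e9f_an.Action

/-!
# The conjugating homeomorphism
-/

namespace Pool.Agent.Work.MP_5a4e9f_an

open Set Filter Topology MeasureTheory

/-- The primitive of `exp φ`. -/
noncomputable def prim (φ : C(UnitAddCircle, ℝ)) (x : ℝ) : ℝ :=
  ∫ s in (0 : ℝ)..x, Real.exp (φ (s : UnitAddCircle))

lemma cont_exp (φ : C(UnitAddCircle, ℝ)) :
    Continuous fun s : ℝ => Real.exp (φ (s : UnitAddCircle)) :=
  Real.continuous_exp.comp (φ.continuous.comp (AddCircle.continuous_mk' 1))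

lemma prim_sub (φ : C(UnitAddCircle, ℝ)) (x y : ℝ) :
    prim φ y - prim φ x = ∫ s in x..y, Real.exp (φ (s : UnitAddCircle)) := by
  unfold prim
  rw [intervalIntegral.integral_interval_sub_left]
  · exact (cont_exp φ).intervalIntegrable _ _
  · exact (cont_exp φ).intervalIntegrable _ _

lemma continuous_prim (φ : C(UnitAddCircle, ℝ)) : Continuous (prim φ) :=
  intervalIntegral.continuous_primitive (fun a b => (cont_exp φ).intervalIntegrable a b) 0

lemma prim_zero (φ : C(UnitAddCircle, ℝ)) : prim φ 0 = 0 := by simp [prim]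

lemma prim_add_one_sub (φ : C(UnitAddCircle, ℝ)) (x : ℝ) :
    prim φ (x + 1) - prim φ x = ∫ y : UnitAddCircle, Real.exp (φ y) := by
  rw [prim_sub]
  exact UnitAddCircle.intervalIntegral_preimage x (fun y => Real.exp (φ y))

lemma prim_add_nat_sub (φ : C(UnitAddCircle, ℝ)) (x : ℝ) (n : ℕ) :
    prim φ (x + n) - prim φ x = n * ∫ y : UnitAddCircle, Real.exp (φ y) := by
  induction n with
  | zero => simp
  | succ k ih =>
    have h := prim_add_one_sub φ (x + k)
    push_cast
    rw [← add_assoc]
    linear_combination h + ih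

lemma le_prim_sub (φ : C(UnitAddCircle, ℝ)) (hφ : ∀ y, 0 ≤ φ y) {x y : ℝ} (h : x ≤ y) :
    y - x ≤ prim φ y - prim φ x := by
  rw [prim_sub]
  have h1 : ∫ _s in x..y, (1 : ℝ) = y - x := by simp
  rw [← h1]
  apply intervalIntegral.integral_mono_on h
  · exact intervalIntegrable_const
  · exact (cont_exp φ).intervalIntegrable _ _
  · intro s _
    exact Real.one_le_exp (hφ _)

lemma prim_diff_mono {φ φ' : C(UnitAddCircle, ℝ)} (h : ∀ y, φ y ≤ φ' y) {x y : ℝ} (hxy : x ≤ y) :
    prim φ y - prim φ x ≤ prim φ' y - prim φ' x := by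
  rw [prim_sub, prim_sub]
  apply intervalIntegral.integral_mono_on hxy
  · exact (cont_exp φ).intervalIntegrable _ _
  · exact (cont_exp φ').intervalIntegrable _ _
  · intro s _
    exact Real.exp_le_exp.2 (h _)

lemma prim_diff_bound {φ φ' : C(UnitAddCircle, ℝ)} (h : ∀ y, φ y ≤ φ' y) {δ : ℝ}
    (hδ : ∫ y, (Real.exp (φ' y) - Real.exp (φ y)) ≤ δ) {x : ℝ} {n : ℕ} (hx : |x| ≤ n) :
    |prim φ' x - prim φ x| ≤ n * δ := by
  have hI : ∫ y : UnitAddCircle, (Real.exp (φ' y) - Real.exp (φ y)) =
      (∫ y : UnitAddCircle, Real.exp (φ' y)) - ∫ y : UnitAddCircle, Real.exp (φ y) := by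
    apply integral_sub
    · exact (Real.continuous_exp.comp φ'.continuous).integrable_of_hasCompactSupport
        (HasCompactSupport.of_compactSpace _)
    · exact (Real.continuous_exp.comp φ.continuous).integrable_of_hasCompactSupport
        (HasCompactSupport.of_compactSpace _)
  rw [hI] at hδ
  have hn0 : (0 : ℝ) ≤ n := Nat.cast_nonneg n
  have hnδ := mul_le_mul_of_nonneg_left hδ hn0
  rw [abs_le] at hx
  have z1 := prim_zero φ
  have z2 := prim_zero φ'
  rcases le_total 0 x with h0 | h0
  · have h1 := prim_diff_mono h h0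
    have h2 := prim_diff_mono h hx.2
    have h3 := prim_add_nat_sub φ 0 n
    have h4 := prim_add_nat_sub φ' 0 n
    rw [zero_add] at h3 h4
    rw [abs_le]
    constructor <;> nlinarith
  · have h1 := prim_diff_mono h h0
    have h2 := prim_diff_mono h hx.1
    have h3 := prim_add_nat_sub φ (-n) n
    have h4 := prim_add_nat_sub φ' (-n) n
    rw [neg_add_cancel] at h3 h4
    rw [abs_le]
    constructor <;> nlinarith

section Limit

variable {Φ : ℕ → C(UnitAddCircle, ℝ)}

/-- The limiting primitive. -/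
lemma exists_limit (h0 : Φ 0 = 0) (hmono : ∀ i x, Φ i x ≤ Φ (i + 1) x)
    (hint : ∀ i, ∫ x, (Real.exp (Φ (i + 1) x) - Real.exp (Φ i x)) ≤ 1 / 2 ^ i) :
    ∃ Q : ℝ → ℝ, (∀ x, Tendsto (fun k => prim (Φ k) x) atTop (𝓝 (Q x))) ∧ Continuous Q ∧
      Q 0 = 0 ∧ (∀ x y, x ≤ y → y - x ≤ Q y - Q x) ∧ (∀ x, Q (x + 1) = Q x + Q 1) := by
  have hstep : ∀ (n : ℕ) (x : ℝ), |x| ≤ n → ∀ k,
      dist (prim (Φ k) x) (prim (Φ (k + 1)) x) ≤ n * (1 / 2) ^ k := by
    intro n x hx k
    rw [dist_comm, Real.dist_eq, one_div_pow]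
    exact prim_diff_bound (hmono k) (hint k) hx
  have hlim : ∀ x, ∃ q, Tendsto (fun k => prim (Φ k) x) atTop (𝓝 q) := by
    intro x
    obtain ⟨n, hn⟩ := exists_nat_ge |x|
    exact cauchySeq_tendsto_of_complete
      (cauchySeq_of_le_geometric (1 / 2) n (by norm_num) (hstep n x hn))
  choose Q hQ using hlim
  have hnn : ∀ k y, 0 ≤ Φ k y := by
    intro k y
    induction k with
    | zero => rw [h0]; simp
    | succ k ih => exact ih.trans (hmono k y)
  refine ⟨Q, hQ, ?_, ?_, ?_, ?_⟩
  · have hloc : TendstoLocallyUniformly (fun k => prim (Φ k)) Q atTop := by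
      rw [Metric.tendstoLocallyUniformly_iff]
      intro ε hε x
      obtain ⟨n, hn⟩ := exists_nat_ge (|x| + 1)
      refine ⟨Metric.ball x 1, Metric.ball_mem_nhds x one_pos, ?_⟩
      have hgeo : Tendsto (fun k : ℕ => (n : ℝ) * (1 / 2) ^ k / (1 - 1 / 2)) atTop (𝓝 0) := by
        have h1 : Tendsto (fun k : ℕ => ((1 : ℝ) / 2) ^ k) atTop (𝓝 0) :=
          tendsto_pow_atTop_nhds_zero_of_lt_one (by norm_num) (by norm_num)
        have h2 := (h1.const_mul (n : ℝ)).div_const (1 - 1 / 2)
        simpa using h2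
      filter_upwards [hgeo.eventually (gt_mem_nhds hε)] with k hk y hy
      have hy' : |y| ≤ n := by
        rw [Metric.mem_ball, Real.dist_eq] at hy
        have h3 := abs_sub_abs_le_abs_sub y x
        linarith
      rw [dist_comm]
      exact lt_of_le_of_lt
        (dist_le_of_le_geometric_of_tendsto (1 / 2) n (by norm_num) (hstep n y hy') (hQ y) k) hk
    exact hloc.continuous (Eventually.frequently (Eventually.of_forall fun k => continuous_prim _))
  · refine tendsto_nhds_unique (hQ 0) ?_
    simp [prim_zero]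
  · intro x y hxy
    refine ge_of_tendsto ((hQ y).sub (hQ x)) (Eventually.of_forall fun k => ?_)
    exact le_prim_sub (Φ k) (hnn k) hxy
  · intro x
    have h1 : Tendsto (fun k => prim (Φ k) (x + 1) - prim (Φ k) x) atTop (𝓝 (Q (x + 1) - Q x)) :=
      (hQ (x + 1)).sub (hQ x)
    have h2 : (fun k => prim (Φ k) (x + 1) - prim (Φ k) x) = fun k => prim (Φ k) 1 := by
      ext k
      have h3 := prim_add_one_sub (Φ k) 0
      rw [zero_add, prim_zero, sub_zero] at h3
      rw [prim_add_one_sub, h3]
    rw [h2] at h1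
    have := tendsto_nhds_unique h1 (hQ 1)
    linarith

/-- Comparison of increments under the action. -/
lemma increments {Q : ℝ → ℝ} (hQ : ∀ x, Tendsto (fun k => prim (Φ k) x) atTop (𝓝 (Q x)))
    {g : F2} {c : C(UnitAddCircle, ℝ)}
    (hc : ∀ ε > 0, ∀ᶠ k in atTop, ∀ x : UnitAddCircle,
      |lam g x + Φ k (g • x) - Φ k x - c x| ≤ ε)
    {x y C ε : ℝ} (hxy : x ≤ y) (hε : 0 < ε)
    (hC : ∀ s ∈ Icc x y, |c (s : UnitAddCircle) - C| ≤ ε) :
    Real.exp (C - 2 * ε) * (Q y - Q x) ≤
        Q ((lft g : Equiv.Perm ℝ) y) - Q ((lft g : Equiv.Perm ℝ) x) ∧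
      Q ((lft g : Equiv.Perm ℝ) y) - Q ((lft g : Equiv.Perm ℝ) x) ≤
        Real.exp (C + 2 * ε) * (Q y - Q x) := by
  set F : ℝ → ℝ := ⇑(lft g : Equiv.Perm ℝ) with hF
  have hgood := good_lft g
  have hsub : ∀ k, prim (Φ k) (F y) - prim (Φ k) (F x) =
      ∫ s in x..y, Real.exp (Φ k (s : UnitAddCircle)) *
        Real.exp (lam g (s : UnitAddCircle) + Φ k (g • (s : UnitAddCircle)) -
          Φ k (s : UnitAddCircle)) := by
    intro k
    rw [prim_sub]
    have h1 := intervalIntegral.integral_comp_mul_deriv (a := x) (b := y) (f := F)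
      (f' := deriv F) (g := fun s : ℝ => Real.exp (Φ k (s : UnitAddCircle)))
      (fun s _ => (hgood.smooth.differentiable one_ne_zero s).hasDerivAt)
      ((hgood.smooth.continuous_deriv le_rfl).continuousOn) (cont_exp (Φ k))
    rw [← h1]
    congr 1
    ext s
    have h2 : Real.exp (lam g (s : UnitAddCircle)) = deriv F s := exp_lam_coe g s
    simp only [Function.comp]
    rw [← h2, ← Real.exp_add, ← Real.exp_add]
    congr 1
    have h3 : g • (s : UnitAddCircle) = ((F s : ℝ) : UnitAddCircle) := smul_coe g s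
    rw [h3]
    ring
  have hcs : Continuous fun s : ℝ => (s : UnitAddCircle) := AddCircle.continuous_mk' 1
  have hint1 : ∀ k, IntervalIntegrable (fun s : ℝ => Real.exp (Φ k (s : UnitAddCircle)) *
      Real.exp (lam g (s : UnitAddCircle) + Φ k (g • (s : UnitAddCircle)) -
        Φ k (s : UnitAddCircle))) volume x y := by
    intro k
    apply Continuous.intervalIntegrable
    have e1 : Continuous fun s : ℝ => Φ k (s : UnitAddCircle) := (Φ k).continuous.comp hcs
    have e2 : Continuous fun s : ℝ => lam g (s : UnitAddCircle) := (lam g).continuous.comp hcs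
    have e3 : Continuous fun s : ℝ => Φ k (g • (s : UnitAddCircle)) :=
      (Φ k).continuous.comp ((continuous_const_smul g).comp hcs)
    fun_prop
  have hlimF : Tendsto (fun k => prim (Φ k) (F y) - prim (Φ k) (F x)) atTop
      (𝓝 (Q (F y) - Q (F x))) := (hQ _).sub (hQ _)
  have hlim0 : Tendsto (fun k => prim (Φ k) y - prim (Φ k) x) atTop (𝓝 (Q y - Q x)) :=
    (hQ _).sub (hQ _)
  constructor
  · refine le_of_tendsto_of_tendsto (hlim0.const_mul _) hlimF ?_
    filter_upwards [hc ε hε] with k hk
    rw [hsub, prim_sub, ← intervalIntegral.integral_const_mul]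
    apply intervalIntegral.integral_mono_on hxy
    · exact ((cont_exp (Φ k)).intervalIntegrable _ _).const_mul _
    · exact hint1 k
    · intro s hs
      have h1 := (abs_le.1 (hk (s : UnitAddCircle))).1
      have h2 := (abs_le.1 (hC s hs)).1
      rw [mul_comm]
      apply mul_le_mul_of_nonneg_left _ (Real.exp_pos _).le
      apply Real.exp_le_exp.2
      linarith
  · refine le_of_tendsto_of_tendsto hlimF (hlim0.const_mul _) ?_
    filter_upwards [hc ε hε] with k hk
    rw [hsub, prim_sub, ← intervalIntegral.integral_const_mul]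
    apply intervalIntegral.integral_mono_on hxy
    · exact hint1 k
    · exact ((cont_exp (Φ k)).intervalIntegrable _ _).const_mul _
    · intro s hs
      have h1 := (abs_le.1 (hk (s : UnitAddCircle))).2
      have h2 := (abs_le.1 (hC s hs)).2
      rw [mul_comm (Real.exp (C + 2 * ε))]
      apply mul_le_mul_of_nonneg_left _ (Real.exp_pos _).le
      apply Real.exp_le_exp.2
      linarith

end Limit

/-- The conjugating homeomorphism and the derivatives of the conjugated maps. -/
theorem exists_conj {Φ : ℕ → C(UnitAddCircle, ℝ)} (h0 : Φ 0 = 0)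
    (hmono : ∀ i x, Φ i x ≤ Φ (i + 1) x)
    (hint : ∀ i, ∫ x, (Real.exp (Φ (i + 1) x) - Real.exp (Φ i x)) ≤ 1 / 2 ^ i) :
    ∃ K : DD, Continuous (K : Equiv.Perm ℝ) ∧ Continuous (K : Equiv.Perm ℝ).symm ∧
      ∀ (g : F2) (c : C(UnitAddCircle, ℝ)),
        (∀ ε > 0, ∀ᶠ k in atTop, ∀ x : UnitAddCircle,
          |lam g x + Φ k (g • x) - Φ k x - c x| ≤ ε) →
        ∀ u : ℝ, HasDerivAt
          (fun u => (K : Equiv.Perm ℝ) ((lft g : Equiv.Perm ℝ) ((K : Equiv.Perm ℝ).symm u)))
          (Real.exp (c (((K : Equiv.Perm ℝ).symm u : ℝ) : UnitAddCircle))) u := by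
  obtain ⟨Q, hQ, hQc, hQ0, hQm, hQ1⟩ := exists_limit h0 hmono hint
  have hM : 1 ≤ Q 1 := by have := hQm 0 1 zero_le_one; rw [hQ0] at this; linarith
  have hMpos : 0 < Q 1 := by linarith
  have hmonoQ : StrictMono fun x => Q x / Q 1 := by
    intro x y hxy
    have := hQm x y hxy.le
    simp only
    gcongr
    linarith
  have hcontQ : Continuous fun x => Q x / Q 1 := hQc.div_const _
  have hsurj : Function.Surjective fun x => Q x / Q 1 := by
    apply hcontQ.surjective
    · apply Tendsto.atTop_div_const hMpos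
      apply tendsto_atTop_mono' atTop _ tendsto_id
      filter_upwards [eventually_ge_atTop (0 : ℝ)] with x hx
      have := hQm 0 x hx
      rw [hQ0] at this
      simp only [id]; linarith
    · apply Tendsto.atBot_div_const hMpos
      apply tendsto_atBot_mono' atBot _ tendsto_id
      filter_upwards [eventually_le_atBot (0 : ℝ)] with x hx
      have := hQm x 0 hx
      rw [hQ0] at this
      simp only [id]; linarith
  let e : ℝ ≃o ℝ := StrictMono.orderIsoOfSurjective _ hmonoQ hsurj
  have he : ∀ x, e x = Q x / Q 1 := fun x => rfl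
  have hmem : e.toEquiv ∈ DD := by
    intro x
    show e (x + 1) = e x + 1
    rw [he, he, hQ1 x, add_div, div_self hMpos.ne']
  refine ⟨⟨e.toEquiv, hmem⟩, e.continuous, e.symm.continuous, ?_⟩
  intro g c hc u
  set x := e.symm u with hx
  have hux : e x = u := e.apply_symm_apply u
  have hgoal : HasDerivAt (fun u => e ((lft g : Equiv.Perm ℝ) (e.symm u)))
      (Real.exp (c (x : UnitAddCircle))) u := by
    rw [hasDerivAt_iff_tendsto_slope]
    set C := c (x : UnitAddCircle) with hC
    rw [Metric.tendsto_nhds]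
    intro η hη
    -- choose ε
    obtain ⟨ε, hε, hε1⟩ : ∃ ε > 0, ∀ d, |d| ≤ 2 * ε → |Real.exp (C + d) - Real.exp C| < η := by
      have h1 : ContinuousAt (fun d : ℝ => Real.exp (C + d)) 0 := by fun_prop
      rw [Metric.continuousAt_iff] at h1
      obtain ⟨δ, hδ, h2⟩ := h1 η hη
      refine ⟨δ / 4, by positivity, fun d hd => ?_⟩
      have h3 := h2 (x := d) (by rw [Real.dist_eq, sub_zero]; linarith)
      rw [Real.dist_eq] at h3
      simpa using h3
    have hcs : Continuous fun s : ℝ => c (s : UnitAddCircle) :=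
      c.continuous.comp (AddCircle.continuous_mk' 1)
    obtain ⟨δ, hδ, hδ1⟩ := (Metric.continuousAt_iff.1 (hcs.continuousAt (x := x))) ε hε
    have hnear : ∀ᶠ u' in 𝓝 u, |e.symm u' - x| < δ := by
      have h1 : ContinuousAt e.symm u := e.symm.continuous.continuousAt
      rw [Metric.continuousAt_iff] at h1
      obtain ⟨δ', hδ', h2⟩ := h1 δ hδ
      filter_upwards [Metric.ball_mem_nhds u hδ'] with u' hu'
      have := h2 hu'
      rwa [Real.dist_eq] at this
    filter_upwards [nhdsWithin_le_nhds hnear, self_mem_nhdsWithin] with u' hu' hne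
    have hne' : u' ≠ u := hne
    set y := e.symm u' with hy
    have huy : e y = u' := e.apply_symm_apply u'
    have hyx : y ≠ x := by
      intro h
      apply hne'
      rw [← huy, ← hux, h]
    -- the slope
    have hslope : slope (fun u => e ((lft g : Equiv.Perm ℝ) (e.symm u))) u u' =
        (Q ((lft g : Equiv.Perm ℝ) y) - Q ((lft g : Equiv.Perm ℝ) x)) / (Q y - Q x) := by
      rw [slope_def_field]
      rw [← hx, ← hy, ← hux, ← huy, he, he, he, he, ← sub_div, ← sub_div,
        div_div_div_cancel_right₀ hMpos.ne']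
    have key : ∃ d, |d| ≤ 2 * ε ∧
        (Q ((lft g : Equiv.Perm ℝ) y) - Q ((lft g : Equiv.Perm ℝ) x)) / (Q y - Q x) =
          Real.exp (C + d) := by
      have hkey2 : ∀ a b : ℝ, a < b → (∀ s ∈ Icc a b, |c (s : UnitAddCircle) - C| ≤ ε) →
          ∃ d, |d| ≤ 2 * ε ∧
            (Q ((lft g : Equiv.Perm ℝ) b) - Q ((lft g : Equiv.Perm ℝ) a)) / (Q b - Q a) =
              Real.exp (C + d) := by
        intro a b hab hs
        obtain ⟨h1, h2⟩ := increments hQ hc hab.le hε hs
        have hpos : 0 < Q b - Q a := by have := hQm a b hab.le; linarith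
        set R := (Q ((lft g : Equiv.Perm ℝ) b) - Q ((lft g : Equiv.Perm ℝ) a)) / (Q b - Q a)
        have h3 : Real.exp (C - 2 * ε) ≤ R := by rwa [le_div_iff₀ hpos]
        have h4 : R ≤ Real.exp (C + 2 * ε) := by rwa [div_le_iff₀ hpos]
        have hR : 0 < R := lt_of_lt_of_le (Real.exp_pos _) h3
        refine ⟨Real.log R - C, ?_, ?_⟩
        · rw [abs_le]
          have h5 := (Real.le_log_iff_exp_le hR).2 h3
          have h6 := (Real.log_le_iff_le_exp hR).2 h4
          constructor <;> linarith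
        · rw [add_sub_cancel, Real.exp_log hR]
      rcases lt_or_gt_of_ne hyx with h | h
      · obtain ⟨d, hd, h1⟩ := hkey2 y x h (by
          intro s hs
          have h2 : dist s x < δ := by
            rw [Real.dist_eq, abs_lt]
            rw [abs_lt] at hu'
            constructor <;> linarith [hs.1, hs.2]
          have := hδ1 h2
          rw [Real.dist_eq] at this
          exact this.le)
        refine ⟨d, hd, ?_⟩
        rw [← h1, ← neg_sub (Q ((lft g : Equiv.Perm ℝ) x)), ← neg_sub (Q x), neg_div_neg_eq]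
      · exact hkey2 x y h (by
          intro s hs
          have h2 : dist s x < δ := by
            rw [Real.dist_eq, abs_lt]
            rw [abs_lt] at hu'
            constructor <;> linarith [hs.1, hs.2]
          have := hδ1 h2
          rw [Real.dist_eq] at this
          exact this.le)
    obtain ⟨d, hd, hkey⟩ := key
    rw [hslope, hkey, Real.dist_eq]
    exact hε1 d hd
  exact hgoal

end Pool.Agent.Work.MP_5a4e9f_an
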