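import Mathlib

/-!
# Groups of circle diffeomorphisms: discrete versus locally discrete

The circle is `UnitAddCircle = ℝ / ℤ`; its bijections form the group `Equiv.Perm UnitAddCircle`.
-/

namespace Pool.Agent.Work.MP_5a4e9f_an

open Filter MeasureTheory

/-- `F : ℝ → ℝ` is a lift of the self-map `f` of the circle `ℝ / ℤ`. -/
def IsLift (F : ℝ → ℝ) (f : UnitAddCircle → UnitAddCircle) : Prop :=
  ∀ x : ℝ, f (x : UnitAddCircle) = (F x : UnitAddCircle)

/-- `f` is a `C^k` diffeomorphism of the circle: both `f` and its inverse lift to `C^k` maps of the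
real line. -/
def IsDiffeo (k : WithTop ℕ∞) (f : Equiv.Perm UnitAddCircle) : Prop :=
  (∃ F : ℝ → ℝ, ContDiff ℝ k F ∧ IsLift F f) ∧
    (∃ F : ℝ → ℝ, ContDiff ℝ k F ∧ IsLift F f.symm)

/-- Uniform `C^l` closeness to the identity on `I`, for finite `l`: `f` has a `C^l` lift `F` such
that all derivatives of order `0, 1, ..., l` of `F - id` are at most `ε` in absolute value over
`I`. -/
def CloseToId (l : ℕ) (f : Equiv.Perm UnitAddCircle) (I : Set UnitAddCircle) (ε : ℝ) : Prop :=
  ∃ F : ℝ → ℝ, ContDiff ℝ l F ∧ IsLift F f ∧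
    ∀ j ≤ l, ∀ x : ℝ, (x : UnitAddCircle) ∈ I → |iteratedDeriv j (fun y => F y - y) x| ≤ ε

/-- The sequence `g` converges to the identity in the `C^l` topology on `I`. -/
def ConvergesToId (l : ℕ) (g : ℕ → Equiv.Perm UnitAddCircle) (I : Set UnitAddCircle) : Prop :=
  ∀ ε > 0, ∀ᶠ n in atTop, CloseToId l (g n) I ε

/-- A closed interval of the circle: the image of `[a, b]` with `a < b < a + 1`. -/
def IsClosedInterval (I : Set UnitAddCircle) : Prop :=
  ∃ a b : ℝ, a < b ∧ b < a + 1 ∧ I = (fun x : ℝ => (x : UnitAddCircle)) '' Set.Icc a b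

/-- No probability measure on the circle is invariant under `G`. -/
def NonElementary (G : Subgroup (Equiv.Perm UnitAddCircle)) : Prop :=
  ∀ μ : Measure UnitAddCircle, IsProbabilityMeasure μ → ∃ g ∈ G, μ.map g ≠ μ

/-- `Λ` is a nonempty compact `G`-invariant set in which all `G`-orbits are dense. -/
def IsLimitSet (G : Subgroup (Equiv.Perm UnitAddCircle)) (Λ : Set UnitAddCircle) : Prop :=
  Λ.Nonempty ∧ IsCompact Λ ∧ (∀ g ∈ G, ∀ x ∈ Λ, g x ∈ Λ) ∧
    ∀ x ∈ Λ, Λ ⊆ closure {y | ∃ g ∈ G, y = g x}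

/-- `G` is discrete in the `C^l` topology. -/
def IsDiscrete (l : ℕ) (G : Subgroup (Equiv.Perm UnitAddCircle)) : Prop :=
  ∀ g : ℕ → Equiv.Perm UnitAddCircle, (∀ n, g n ∈ G) → ConvergesToId l g Set.univ →
    ∀ᶠ n in atTop, g n = 1

/-- `G` is locally discrete in the `C^l` topology: its limit set is covered by closed intervals
`I` such that, whenever a sequence of elements of `G` converges to the identity in the `C^l`
topology on `I`, its restriction to `I` is eventually the identity. -/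
def IsLocallyDiscrete (l : ℕ) (G : Subgroup (Equiv.Perm UnitAddCircle)) : Prop :=
  ∃ Λ : Set UnitAddCircle, IsLimitSet G Λ ∧
    ∃ cover : Set (Set UnitAddCircle), (∀ I ∈ cover, IsClosedInterval I) ∧ Λ ⊆ ⋃₀ cover ∧
      ∀ I ∈ cover, ∀ g : ℕ → Equiv.Perm UnitAddCircle, (∀ n, g n ∈ G) → ConvergesToId l g I →
        ∀ᶠ n in atTop, ∀ x ∈ I, g n x = x

end Pool.Agent.Work.MP_5a4e9f_an
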