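import Mathlib
import Pool.Agent.Work.MP_5a4e9f_an.Action

/-!
# There is no invariant probability measure
-/

namespace Pool.Agent.Work.MP_5a4e9f_an

open Set Filter Topology MeasureTheory

/-- A Lyapunov function of the hyperbolic generator. -/
noncomputable def lyap : C(UnitAddCircle, ℝ) :=
  perC (fun u => -Real.cos (2 * (Real.pi * u))) (by fun_prop) (fun u => by
    simp only
    have h1 : 2 * (Real.pi * (u + 1)) = 2 * (Real.pi * u) + 2 * Real.pi := by ring
    rw [h1, Real.cos_add_two_pi])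

lemma lyap_coe (u : ℝ) : lyap (u : UnitAddCircle) = -Real.cos (2 * (Real.pi * u)) := rfl

lemma lyap_ga (u : ℝ) : ∃ d : ℝ, 0 < d ∧
    d * (lyap (ga • (u : UnitAddCircle)) - lyap (u : UnitAddCircle)) =
      12 * Real.sin (2 * (Real.pi * u)) ^ 2 := by
  obtain ⟨c, hc, h1, h2⟩ := rel_hh_pos u
  refine ⟨c ^ 2, by positivity, ?_⟩
  rw [smul_coe, lft_ga, liftA_apply, lyap_coe, lyap_coe]
  simp at h1 h2
  have h3 := Real.sin_sq_add_cos_sq (Real.pi * u)
  have h4 := Real.sin_sq_add_cos_sq (Real.pi * hh 1 u)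
  have h5 : c ^ 2 = Real.cos (Real.pi * u) ^ 2 + 25 * Real.sin (Real.pi * u) ^ 2 := by
    have e1 : Real.cos (Real.pi * u) ^ 2 = c ^ 2 * Real.cos (Real.pi * hh 1 u) ^ 2 := by
      rw [h1]; ring
    have e2 : 25 * Real.sin (Real.pi * u) ^ 2 = c ^ 2 * Real.sin (Real.pi * hh 1 u) ^ 2 := by
      have : (5 * Real.sin (Real.pi * u)) ^ 2 = (c * Real.sin (Real.pi * hh 1 u)) ^ 2 := by
        rw [h2]
      linear_combination this
    rw [e1, e2]
    linear_combination -(c ^ 2) * h4
  have h6 : c ^ 2 * Real.cos (Real.pi * hh 1 u) ^ 2 = Real.cos (Real.pi * u) ^ 2 := by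
    rw [h1]; ring
  rw [Real.cos_two_mul, Real.cos_two_mul, Real.sin_two_mul]
  linear_combination (-2) * h6 + (2 * Real.cos (Real.pi * u) ^ 2) * h5 +
    (2 * Real.cos (Real.pi * u) ^ 2) * h3

lemma lyap_nonneg (x : UnitAddCircle) : 0 ≤ lyap (ga • x) - lyap x := by
  induction x using QuotientAddGroup.induction_on with
  | H u =>
    obtain ⟨d, hd, h⟩ := lyap_ga u
    suffices hs : 0 ≤ lyap (ga • (u : UnitAddCircle)) - lyap (u : UnitAddCircle) from hs
    by_contra hcon
    rw [not_le] at hcon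
    have := mul_neg_of_pos_of_neg hd hcon
    rw [h] at this
    have h2 : 0 ≤ 12 * Real.sin (2 * (Real.pi * u)) ^ 2 := by positivity
    linarith

lemma lyap_zero {x : UnitAddCircle} (hx : lyap (ga • x) - lyap x = 0) : x + x = 0 := by
  induction x using QuotientAddGroup.induction_on with
  | H u =>
    obtain ⟨d, hd, h⟩ := lyap_ga u
    have hx' : lyap (ga • (u : UnitAddCircle)) - lyap (u : UnitAddCircle) = 0 := hx
    rw [hx', mul_zero] at h
    have h1 : Real.sin (2 * (Real.pi * u)) = 0 := by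
      have h2 : Real.sin (2 * (Real.pi * u)) ^ 2 = 0 := by linarith
      exact pow_eq_zero_iff (two_ne_zero) |>.1 h2
    rw [Real.sin_eq_zero_iff] at h1
    obtain ⟨n, hn⟩ := h1
    suffices hs : (u : UnitAddCircle) + (u : UnitAddCircle) = 0 from hs
    rw [← AddCircle.coe_add, AddCircle.coe_eq_zero_iff]
    refine ⟨n, ?_⟩
    have := Real.pi_ne_zero
    have h3 : Real.pi * n = Real.pi * (u + u) := by linarith
    have h4 := mul_left_cancel₀ this h3
    simp [h4]

theorem no_invariant (ν : Measure UnitAddCircle) [IsProbabilityMeasure ν]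
    (ha : ν.map (fun x => ga • x) = ν) (ht : ν.map (fun x => gt • x) = ν) : False := by
  have hma : Measurable fun x : UnitAddCircle => ga • x :=
    (continuous_const_smul ga).measurable
  have hmt : Measurable fun x : UnitAddCircle => gt • x :=
    (continuous_const_smul gt).measurable
  have i1 : Integrable (fun x => lyap x) ν :=
    lyap.continuous.integrable_of_hasCompactSupport (HasCompactSupport.of_compactSpace _)
  have c2 : Continuous fun x : UnitAddCircle => lyap (ga • x) :=
    lyap.continuous.comp (continuous_const_smul ga)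
  have i2 : Integrable (fun x : UnitAddCircle => lyap (ga • x)) ν :=
    c2.integrable_of_hasCompactSupport (HasCompactSupport.of_compactSpace _)
  have e1 : ∫ x, lyap (ga • x) ∂ν = ∫ x, lyap x ∂ν := by
    conv_rhs => rw [← ha]
    rw [integral_map hma.aemeasurable lyap.continuous.aestronglyMeasurable]
  have e2 : ∫ x, (lyap (ga • x) - lyap x) ∂ν = 0 := by
    rw [integral_sub i2 i1, e1, sub_self]
  have e3 := (integral_eq_zero_iff_of_nonneg (μ := ν) (f := fun x => lyap (ga • x) - lyap x)
    (fun x => lyap_nonneg x) (i2.sub i1)).1 e2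
  have e4 : ∀ᵐ x ∂ν, x + x = 0 := by
    filter_upwards [e3] with x hx
    exact lyap_zero hx
  have e5 : ∀ᵐ x ∂ν, gt • x + gt • x = 0 := by
    have h1 : ∀ᵐ x ∂(ν.map (fun x => gt • x)), x + x = 0 := by rw [ht]; exact e4
    exact ae_of_ae_map hmt.aemeasurable h1
  obtain ⟨x, h1, h2⟩ := (e4.and e5).exists
  rw [gt_smul] at h2
  have h3 : 2 • (alpha : UnitAddCircle) = 0 := by
    have : x + (alpha : UnitAddCircle) + (x + (alpha : UnitAddCircle)) =
        (x + x) + 2 • (alpha : UnitAddCircle) := by rw [two_nsmul]; abel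
    rw [this, h1, zero_add] at h2
    exact h2
  exact (addOrderOf_eq_zero_iff'.1 addOrderOf_alpha) 2 (by norm_num) h3

end Pool.Agent.Work.MP_5a4e9f_an
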