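import Mathlib
import Pool.Agent.Work.MP_5a4e9f_an.Bridge

/-!
# Weighted words and the bump functions they define
-/

namespace Pool.Agent.Work.MP_5a4e9f_an

open Set Filter Topology

section Cost

variable {Γ X : Type*} [Group Γ] [MulAction Γ X]

open Classical in
/-- The cost of the letter `s` at the point `y`; only the letters `z`, `z⁻¹` are expensive, and
only in the zone where `β` is large. -/
noncomputable def kap (z : Γ) (β : X → ℝ) (N : ℝ) (s : Γ) (y : X) : ℝ :=
  1 + (if s = z then N * β y else 0) + (if s = z⁻¹ then N * β (z⁻¹ • y) else 0)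

/-- The cost of a word applied at the point `y`. -/
noncomputable def cost (z : Γ) (β : X → ℝ) (N : ℝ) : List Γ → X → ℝ
  | [], _ => 0
  | s :: l, y => kap z β N s (l.prod • y) + cost z β N l y

variable {z : Γ} {β : X → ℝ} {N : ℝ}

lemma one_le_kap (hβ : ∀ x, 0 ≤ β x) (hN : 0 ≤ N) (s : Γ) (y : X) : 1 ≤ kap z β N s y := by
  unfold kap
  have h1 := mul_nonneg hN (hβ y)
  have h2 := mul_nonneg hN (hβ (z⁻¹ • y))
  split_ifs <;> linarith

lemma kap_inv (s : Γ) (y : X) : kap z β N s⁻¹ (s • y) = kap z β N s y := by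
  unfold kap
  have e1 : (s⁻¹ = z) ↔ (s = z⁻¹) := ⟨fun h => by rw [← h, inv_inv], fun h => by rw [h, inv_inv]⟩
  have e2 : (s⁻¹ = z⁻¹) ↔ (s = z) := inv_inj
  by_cases h1 : s = z <;> by_cases h2 : s = z⁻¹
  · rw [if_pos (e1.2 h2), if_pos (e2.2 h1), if_pos h1, if_pos h2]
    have : z⁻¹ • s • y = y := by rw [h1, inv_smul_smul]
    rw [this]
    have h3 : s • y = z⁻¹ • y := by rw [h2]
    rw [h3]; ring
  · rw [if_neg (fun h => h2 (e1.1 h)), if_pos (e2.2 h1), if_pos h1, if_neg h2]
    have : z⁻¹ • s • y = y := by rw [h1, inv_smul_smul]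
    rw [this]; ring
  · rw [if_pos (e1.2 h2), if_neg (fun h => h1 (e2.1 h)), if_neg h1, if_pos h2]
    have h3 : s • y = z⁻¹ • y := by rw [h2]
    rw [h3]; ring
  · rw [if_neg (fun h => h2 (e1.1 h)), if_neg (fun h => h1 (e2.1 h)), if_neg h1, if_neg h2]

lemma cost_nonneg (hβ : ∀ x, 0 ≤ β x) (hN : 0 ≤ N) (l : List Γ) (y : X) :
    0 ≤ cost z β N l y := by
  induction l with
  | nil => simp [cost]
  | cons s l ih =>
    have := one_le_kap (z := z) hβ hN s (l.prod • y)
    simp only [cost]; linarith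

lemma length_le_cost (hβ : ∀ x, 0 ≤ β x) (hN : 0 ≤ N) (l : List Γ) (y : X) :
    (l.length : ℝ) ≤ cost z β N l y := by
  induction l with
  | nil => simp [cost]
  | cons s l ih =>
    have := one_le_kap (z := z) hβ hN s (l.prod • y)
    simp only [cost, List.length_cons]; push_cast; linarith

lemma cost_append (l₁ l₂ : List Γ) (y : X) :
    cost z β N (l₁ ++ l₂) y = cost z β N l₁ (l₂.prod • y) + cost z β N l₂ y := by
  induction l₁ with
  | nil => simp [cost]
  | cons s l ih =>
    simp only [List.cons_append, cost, ih, List.prod_append, mul_smul]; ring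

lemma cost_singleton (s : Γ) (y : X) : cost z β N [s] y = kap z β N s y := by
  simp [cost]

lemma cost_rev (l : List Γ) (y : X) :
    cost z β N (l.map (fun s => s⁻¹)).reverse (l.prod • y) = cost z β N l y := by
  induction l with
  | nil => simp [cost]
  | cons s l ih =>
    rw [List.map_cons, List.reverse_cons, cost_append, cost_singleton, List.prod_singleton,
      List.prod_cons, mul_smul, inv_smul_smul, kap_inv, ih]
    simp only [cost]; ring

lemma cost_crossing (hβ : ∀ x, 0 ≤ β x) (hN : 0 ≤ N) {v : Γ} {y : X} (hv : β (v • y) = 1)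
    {l l₁ l₂ : List Γ} {s : Γ} (hl : l = l₁ ++ s :: l₂)
    (hs : (s = z ∧ l₂.prod = v) ∨ (s = z⁻¹ ∧ l₂.prod = z * v)) : N < cost z β N l y := by
  subst hl
  rw [cost_append]
  have h1 : kap z β N s (l₂.prod • y) ≥ 1 + N := by
    unfold kap
    have h3 := mul_nonneg hN (hβ (z⁻¹ • l₂.prod • y))
    have h4 := mul_nonneg hN (hβ (l₂.prod • y))
    rcases hs with ⟨rfl, h2⟩ | ⟨rfl, h2⟩
    · rw [if_pos rfl, h2, hv]
      rw [h2] at h3
      split_ifs <;> linarith
    · rw [if_pos rfl, h2, mul_smul, inv_smul_smul, hv]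
      rw [h2, mul_smul] at h4
      split_ifs <;> linarith
  have h5 := cost_nonneg (z := z) hβ hN l₁ ((s :: l₂).prod • y)
  have h6 := cost_nonneg (z := z) hβ hN l₂ y
  simp only [cost]
  linarith

lemma continuous_kap [TopologicalSpace X] [ContinuousConstSMul Γ X] (hβ : Continuous β) (s : Γ) :
    Continuous (kap z β N s) := by
  unfold kap
  have h1 : Continuous fun y : X => β (z⁻¹ • y) := hβ.comp (continuous_const_smul _)
  split_ifs <;> fun_prop

lemma continuous_cost [TopologicalSpace X] [ContinuousConstSMul Γ X] (hβ : Continuous β)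
    (l : List Γ) : Continuous (cost z β N l) := by
  induction l with
  | nil => exact continuous_const
  | cons s l ih =>
    have h1 : Continuous fun y : X => kap z β N s (l.prod • y) :=
      (continuous_kap hβ s).comp (continuous_const_smul _)
    exact h1.add ih

end Cost

/-- There are finitely many words of bounded length in a finite alphabet. -/
lemma finite_words {Γ : Type*} {A : Set Γ} (hA : A.Finite) (N : ℕ) :
    {l : List Γ | l.length ≤ N ∧ ∀ s ∈ l, s ∈ A}.Finite := by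
  have : Finite A := hA
  refine ((List.finite_length_le A N).image (List.map Subtype.val)).subset ?_
  rintro l ⟨h1, h2⟩
  lift l to List A using h2
  exact ⟨l, by simpa using h1, rfl⟩

lemma finite_Qset {Γ : Type*} [Group Γ] {A : Set Γ} (hA : A.Finite) (N : ℕ) :
    (Qset A N).Finite := by
  refine ((finite_words hA N).image List.prod).subset ?_
  rintro g ⟨l, h1, h2, rfl⟩
  exact ⟨l, ⟨h1, h2⟩, rfl⟩

section Psi

variable {Γ X : Type*} [Group Γ] [MulAction Γ X]

/-- The value of the word `l` at `y`. -/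
noncomputable def wval (z : Γ) (β : X → ℝ) (N : ℝ) (f : X → ℝ) (l : List Γ) (y : X) : ℝ :=
  f (l.prod • y) - cost z β N l y / N

/-- The regularised bump function. -/
noncomputable def psi (z : Γ) (β : X → ℝ) (N : ℝ) (L : Finset (List Γ)) (hL : L.Nonempty)
    (f : X → ℝ) (y : X) : ℝ :=
  L.sup' hL (fun l => wval z β N f l y)

variable {z : Γ} {β : X → ℝ} {f : X → ℝ} {A : Set Γ} {L : Finset (List Γ)} {hL : L.Nonempty}
  {N : ℕ}

lemma continuous_psi [TopologicalSpace X] [ContinuousConstSMul Γ X] (hβ : Continuous β)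
    (hf : Continuous f) : Continuous (psi z β N L hL f) := by
  unfold psi
  apply Continuous.finset_sup'_apply
  intro l _
  unfold wval
  have h1 : Continuous fun y : X => f (l.prod • y) := hf.comp (continuous_const_smul _)
  have h2 : Continuous fun y : X => cost z β N l y := continuous_cost hβ l
  fun_prop

lemma f_le_psi (hnil : [] ∈ L) (y : X) : f y ≤ psi z β N L hL f y := by
  have h1 : wval z β N f [] y ≤ psi z β N L hL f y :=
    Finset.le_sup' (fun l => wval z β N f l y) hnil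
  have h2 : wval z β N f [] y = f y := by simp [wval, cost]
  rwa [h2] at h1

lemma psi_nonneg (hnil : [] ∈ L) (hf0 : ∀ x, 0 ≤ f x) (y : X) : 0 ≤ psi z β N L hL f y :=
  (hf0 y).trans (f_le_psi hnil y)

lemma psi_le_one (hβ : ∀ x, 0 ≤ β x) (hf1 : ∀ x, f x ≤ 1) (y : X) :
    psi z β N L hL f y ≤ 1 := by
  apply Finset.sup'_le
  intro l _
  unfold wval
  have h1 := cost_nonneg (z := z) hβ (Nat.cast_nonneg N) l y
  have h2 : 0 ≤ cost z β N l y / N := div_nonneg h1 (Nat.cast_nonneg N)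
  linarith [hf1 (l.prod • y)]

lemma psi_eq_zero (hnil : [] ∈ L) (hf0 : ∀ x, 0 ≤ f x) {y : X}
    (h : ∀ l ∈ L, wval z β N f l y ≤ 0) : psi z β N L hL f y = 0 :=
  le_antisymm (Finset.sup'_le _ _ h) (psi_nonneg hnil hf0 y)

lemma wval_le_psi (hLA : ∀ l, l ∈ L ↔ l.length ≤ N ∧ ∀ s ∈ l, s ∈ A)
    (hβ : ∀ x, 0 ≤ β x) (hf0 : ∀ x, 0 ≤ f x) (hf1 : ∀ x, f x ≤ 1) (hN : 1 ≤ N)
    {l : List Γ} (hl : ∀ s ∈ l, s ∈ A) (y : X) : wval z β N f l y ≤ psi z β N L hL f y := by
  by_cases h : l.length ≤ N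
  · exact Finset.le_sup' (fun l => wval z β N f l y) ((hLA l).2 ⟨h, hl⟩)
  · rw [not_le] at h
    have h0 : 0 ≤ psi z β N L hL f y := psi_nonneg ((hLA []).2 ⟨by simp, by simp⟩) hf0 y
    refine le_trans ?_ h0
    unfold wval
    have hN' : (0 : ℝ) < N := by exact_mod_cast hN
    have h1 := length_le_cost (z := z) hβ hN'.le l y
    have h2 : (N : ℝ) ≤ l.length := by exact_mod_cast h.le
    have h3 : 1 ≤ cost z β N l y / N := by rw [le_div_iff₀ hN']; linarith
    linarith [hf1 (l.prod • y)]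

lemma psi_smul_sub_le (hLA : ∀ l, l ∈ L ↔ l.length ≤ N ∧ ∀ s ∈ l, s ∈ A)
    (hβ : ∀ x, 0 ≤ β x) (hf0 : ∀ x, 0 ≤ f x) (hf1 : ∀ x, f x ≤ 1) (hN : 1 ≤ N)
    {s : Γ} (hs : s ∈ A) (y : X) :
    psi z β N L hL f (s • y) - kap z β N s y / N ≤ psi z β N L hL f y := by
  rw [sub_le_iff_le_add]
  apply Finset.sup'_le
  intro l hl
  have h1 : ∀ s' ∈ l ++ [s], s' ∈ A := by
    intro s' hs'
    rw [List.mem_append, List.mem_singleton] at hs'
    rcases hs' with h | rfl
    · exact ((hLA l).1 hl).2 _ h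
    · exact hs
  have h2 := wval_le_psi (z := z) (hL := hL) hLA hβ hf0 hf1 hN h1 y
  have h3 : wval z β N f (l ++ [s]) y = wval z β N f l (s • y) - kap z β N s y / N := by
    unfold wval
    rw [cost_append, cost_singleton, List.prod_append, List.prod_singleton, mul_smul, add_div]
    ring
  rw [h3] at h2
  linarith

lemma abs_psi_smul_sub_le (hLA : ∀ l, l ∈ L ↔ l.length ≤ N ∧ ∀ s ∈ l, s ∈ A)
    (hβ : ∀ x, 0 ≤ β x) (hf0 : ∀ x, 0 ≤ f x) (hf1 : ∀ x, f x ≤ 1) (hN : 1 ≤ N)
    {s : Γ} (hs : s ∈ A) (hs' : s⁻¹ ∈ A) (y : X) :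
    |psi z β N L hL f (s • y) - psi z β N L hL f y| ≤ kap z β N s y / N := by
  have h1 := psi_smul_sub_le (z := z) (hL := hL) hLA hβ hf0 hf1 hN hs y
  have h2 := psi_smul_sub_le (z := z) (hL := hL) hLA hβ hf0 hf1 hN hs' (s • y)
  rw [inv_smul_smul, kap_inv] at h2
  rw [abs_le]
  constructor <;> linarith

end Psi

/-- Choice of base points. -/
lemma exists_points {Γ X : Type*} [Group Γ] [Countable Γ] [TopologicalSpace X] [MulAction Γ X]
    (hopen : ∀ U : Set X, IsOpen U → U.Nonempty → ¬ U.Countable) (J : Finset Γ) (O : Γ → Set X)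
    (hO : ∀ g, IsOpen (O g)) (hne : ∀ g, (O g).Nonempty) {C : Set X} (hC : C.Countable) :
    ∃ x : Γ → X, (∀ g ∈ J, x g ∈ O g ∧ x g ∉ C) ∧
      ∀ g ∈ J, ∀ g' ∈ J, ∀ h : Γ, h • x g = x g' → g = g' := by
  classical
  induction J using Finset.induction_on with
  | empty =>
    obtain ⟨y, -⟩ := hne 1
    exact ⟨fun _ => y, by simp, by simp⟩
  | insert g J hg ih =>
    obtain ⟨x, hx1, hx2⟩ := ih
    have hc : (C ∪ ⋃ g' ∈ J, range fun h : Γ => h • x g').Countable := by
      refine hC.union ?_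
      exact J.countable_toSet.biUnion (fun g' _ => countable_range _)
    obtain ⟨y, hy1, hy2⟩ : ∃ y ∈ O g, y ∉ C ∪ ⋃ g' ∈ J, range fun h : Γ => h • x g' := by
      by_contra hcon
      push Not at hcon
      exact hopen _ (hO g) (hne g) (hc.mono hcon)
    have hy3 : y ∉ C := fun h => hy2 (Or.inl h)
    have hy4 : ∀ g' ∈ J, ∀ h : Γ, h • x g' ≠ y := by
      intro g' hg' h hh
      apply hy2
      right
      simp only [mem_iUnion]
      exact ⟨g', hg', h, hh⟩
    have hgJ : ∀ g' ∈ J, g' ≠ g := fun g' hg' h => hg (h ▸ hg')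
    refine ⟨Function.update x g y, ?_, ?_⟩
    · intro g' hg'
      rw [Finset.mem_insert] at hg'
      rcases hg' with rfl | hg'
      · rw [Function.update_self]; exact ⟨hy1, hy3⟩
      · rw [Function.update_of_ne (hgJ g' hg')]; exact hx1 g' hg'
    · intro g₁ h₁ g₂ h₂ h hh
      rw [Finset.mem_insert] at h₁ h₂
      rcases h₁ with rfl | h₁ <;> rcases h₂ with rfl | h₂
      · rfl
      · rw [Function.update_self, Function.update_of_ne (hgJ g₂ h₂)] at hh
        exact absurd (by rw [← hh, inv_smul_smul]) (hy4 g₂ h₂ h⁻¹)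
      · rw [Function.update_self, Function.update_of_ne (hgJ g₁ h₁)] at hh
        exact absurd hh (hy4 g₁ h₁ h)
      · rw [Function.update_of_ne (hgJ g₁ h₁), Function.update_of_ne (hgJ g₂ h₂)] at hh
        exact hx2 g₁ h₁ g₂ h₂ h hh

end Pool.Agent.Work.MP_5a4e9f_an
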