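import Mathlib
import Pool.Agent.Work.MP_5a4e9f_an.Cost

/-!
# One stage of the inductive construction
-/

namespace Pool.Agent.Work.MP_5a4e9f_an

open Set Filter Topology MeasureTheory

section Bump

variable {X : Type*} [MetricSpace X]

/-- The bump function with peak at the points of `B`. -/
noncomputable def bump (K : ℕ) (B : Set X) (y : X) : ℝ := max 0 (1 - K * Metric.infDist y B)

lemma continuous_bump (K : ℕ) (B : Set X) : Continuous (bump K B) := by
  unfold bump
  have := Metric.continuous_infDist_pt B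
  fun_prop

lemma bump_nonneg (K : ℕ) (B : Set X) (y : X) : 0 ≤ bump K B y := le_max_left _ _

lemma bump_le_one (K : ℕ) (B : Set X) (y : X) : bump K B y ≤ 1 := by
  unfold bump
  refine max_le zero_le_one ?_
  have := mul_nonneg (Nat.cast_nonneg (α := ℝ) K) (Metric.infDist_nonneg (x := y) (s := B))
  linarith

lemma bump_self (K : ℕ) {B : Set X} {y : X} (hy : y ∈ B) : bump K B y = 1 := by
  unfold bump
  rw [Metric.infDist_zero_of_mem hy]; simp

lemma eventually_bump_zero {B : Set X} (hB : IsClosed B) (hne : B.Nonempty) {y : X} (hy : y ∉ B) :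
    ∀ᶠ K : ℕ in atTop, bump K B y = 0 := by
  have h := (hB.notMem_iff_infDist_pos hne).1 hy
  obtain ⟨n, hn⟩ := exists_nat_gt (1 / Metric.infDist y B)
  filter_upwards [eventually_ge_atTop n] with K hK
  unfold bump
  apply max_eq_left
  have h1 : (n : ℝ) ≤ K := by exact_mod_cast hK
  rw [div_lt_iff₀ h] at hn
  have h2 := mul_le_mul_of_nonneg_right h1 h.le
  linarith

variable {Γ : Type*} [Group Γ] [MulAction Γ X]

lemma eventually_psi_zero {z : Γ} {β : X → ℝ} {N : ℕ} {L : Finset (List Γ)} {hL : L.Nonempty}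
    (hnil : [] ∈ L) (hβ : ∀ x, 0 ≤ β x) (hN : 1 ≤ N) {B : Set X} (hB : IsClosed B)
    (hne : B.Nonempty) {y : X}
    (h : ∀ l ∈ L, l.prod • y ∉ B ∨ (N : ℝ) < cost z β N l y) :
    ∀ᶠ K : ℕ in atTop, psi z β N L hL (bump K B) y = 0 := by
  have h1 : ∀ l ∈ L, ∀ᶠ K : ℕ in atTop, wval z β N (bump K B) l y ≤ 0 := by
    intro l hl
    rcases h l hl with h2 | h2
    · filter_upwards [eventually_bump_zero hB hne h2] with K hK
      unfold wval
      rw [hK]
      have := div_nonneg (cost_nonneg (z := z) hβ (Nat.cast_nonneg N) l y) (Nat.cast_nonneg N)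
      linarith
    · refine Eventually.of_forall fun K => ?_
      unfold wval
      have hN' : (0 : ℝ) < N := by exact_mod_cast hN
      have h3 : 1 < cost z β N l y / N := by rw [lt_div_iff₀ hN']; linarith
      linarith [bump_le_one K B (l.prod • y)]
  filter_upwards [(eventually_all_finset L).2 h1] with K hK
  exact psi_eq_zero hnil (bump_nonneg K B) hK

end Bump

/-- One stage of the construction. -/
theorem stage {Γ X : Type*} [Group Γ] [Countable Γ] [MetricSpace X] [CompactSpace X]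
    [MeasurableSpace X] [BorelSpace X] (μ : Measure X) [IsFiniteMeasure μ] [NullSingletonClass μ]
    [MulAction Γ X] [ContinuousConstSMul Γ X]
    (hopen : ∀ U : Set X, IsOpen U → U.Nonempty → ¬ U.Countable)
    (hfix : ∀ g : Γ, g ≠ 1 → {x : X | g • x = x}.Countable)
    (lam : Γ → C(X, ℝ)) {W : Set Γ} (hW : W.Finite) (hWinv : ∀ w ∈ W, w⁻¹ ∈ W) (N N' : ℕ)
    (hN : 1 ≤ N) {z : Γ} (hz : z ∉ W) (hz' : z⁻¹ ∉ W) (hzz : z ≠ z⁻¹) (hbr : Bridging W N z)
    (φ : C(X, ℝ)) {T : Set X} (hT : T.Finite) (v : X) {r : ℝ} (hr : 0 < r) {δ : ℝ} (hδ : 0 < δ) :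
    ∃ ψ : C(X, ℝ), ∃ T' : Set X, T'.Finite ∧ T ⊆ T' ∧ (∀ x, 0 ≤ ψ x ∧ ψ x ≤ 1) ∧
      (∀ x ∈ T, ψ x = 0) ∧
      (∀ w ∈ W, ∀ x, |ψ (w • x) - ψ x| ≤ 1 / N) ∧
      (∀ x, r ≤ dist x v → |ψ (z • x) - ψ x| ≤ 1 / N) ∧
      (∀ g ∈ Qset (W ∪ {z, z⁻¹}) N', g ∉ Qset W N →
        ∃ x ∈ T', ∃ x' ∈ T', g • x ∈ T' ∧ g • x' ∈ T' ∧
          ψ x = 1 ∧ ψ (g • x) = 0 ∧ ψ x' = 0 ∧ ψ (g • x') = 0 ∧
          |(lam g x + φ (g • x) - φ x) - (lam g x' + φ (g • x') - φ x')| ≤ 1 / 4) ∧
      ∫ x, Real.exp (φ x) * (Real.exp (ψ x) - 1) ∂μ ≤ δ := by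
  classical
  -- the barrier
  set β : X → ℝ := fun x => max 0 (min 1 (2 - 2 * dist x v / r)) with hβdef
  have hβc : Continuous β := by
    have : Continuous fun x : X => dist x v := continuous_id.dist continuous_const
    rw [hβdef]; fun_prop
  have hβ0 : ∀ x, 0 ≤ β x := fun x => le_max_left _ _
  have hβfar : ∀ x, r ≤ dist x v → β x = 0 := by
    intro x hx
    apply max_eq_left
    apply (min_le_right _ _).trans
    have : 1 ≤ dist x v / r := by rw [le_div_iff₀ hr]; linarith
    rw [mul_div_assoc]; linarith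
  have hβnear : ∀ x, dist x v < r / 2 → β x = 1 := by
    intro x hx
    have h1 : dist x v / r < 1 / 2 := by rw [div_lt_iff₀ hr]; linarith
    have h2 : (1 : ℝ) ≤ 2 - 2 * dist x v / r := by rw [mul_div_assoc]; linarith
    rw [hβdef]
    simp only
    rw [min_eq_left h2]; simp
  -- the alphabet
  set A : Set Γ := W ∪ {z, z⁻¹} with hA
  have hAfin : A.Finite := hW.union (by simp)
  have hAinv : ∀ s ∈ A, s⁻¹ ∈ A := by
    intro s hs
    rw [hA, mem_union, mem_insert_iff, mem_singleton_iff] at hs ⊢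
    rcases hs with h | rfl | rfl
    · left; exact hWinv s h
    · right; right; rfl
    · right; left; rw [inv_inv]
  have hAmem : ∀ s, s ∈ A ↔ (s ∈ W ∨ s = z ∨ s = z⁻¹) := by
    intro s; rw [hA, mem_union, mem_insert_iff, mem_singleton_iff]
  -- the words
  set L : Finset (List Γ) := (finite_words hAfin N).toFinset with hLdef
  have hLA : ∀ l, l ∈ L ↔ l.length ≤ N ∧ ∀ s ∈ l, s ∈ A := by
    intro l; rw [hLdef, Set.Finite.mem_toFinset]; rfl
  have hnil : [] ∈ L := (hLA []).2 ⟨by simp, by simp⟩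
  have hL : L.Nonempty := ⟨_, hnil⟩
  -- the new elements
  set J : Finset Γ := ((finite_Qset hAfin N').sdiff (t := Qset W N)).toFinset with hJdef
  have hJ : ∀ g, g ∈ J ↔ g ∈ Qset A N' ∧ g ∉ Qset W N := by
    intro g; rw [hJdef, Set.Finite.mem_toFinset]; rfl
  -- the bridges
  have hbr' : ∀ g : Γ, ∃ v' : Γ, g ∉ Qset W N → ∀ l : List Γ, l.length ≤ N →
      (∀ s ∈ l, s ∈ W ∨ s = z ∨ s = z⁻¹) → l.prod = g →
      ∃ l₁ s l₂, l = l₁ ++ s :: l₂ ∧ ((s = z ∧ l₂.prod = v') ∨ (s = z⁻¹ ∧ l₂.prod = z * v')) := by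
    intro g
    by_cases hg : g ∈ Qset W N
    · exact ⟨1, fun h => absurd hg h⟩
    · obtain ⟨v', hv'⟩ := hbr g hg
      exact ⟨v', fun _ => hv'⟩
  choose vv hvv using hbr'
  -- the base points
  have hCc : ((⋃ h : Γ, (fun y => h • y) '' T) ∪
      ⋃ h : {h : Γ // h ≠ 1}, {x : X | (h : Γ) • x = x}).Countable := by
    refine (countable_iUnion fun h => hT.countable.image _).union ?_
    exact countable_iUnion fun h => hfix h.1 h.2
  obtain ⟨x, hx1, hx2⟩ := exists_points (Γ := Γ) hopen (insert 1 J)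
    (fun g => {x : X | dist (vv g • x) v < r / 2})
    (fun g => isOpen_lt ((continuous_const_smul (vv g)).dist continuous_const) continuous_const)
    (fun g => ⟨(vv g)⁻¹ • v, by simp [hr]⟩) hCc
  have hxT : ∀ g ∈ insert 1 J, ∀ h : Γ, ∀ y ∈ T, x g ≠ h • y := by
    intro g hg h y hy hh
    apply (hx1 g hg).2
    left
    rw [mem_iUnion]
    exact ⟨h, y, hy, hh.symm⟩
  have hxstab : ∀ g ∈ insert 1 J, ∀ h : Γ, h • x g = x g → h = 1 := by
    intro g hg h hh
    by_contra hne
    apply (hx1 g hg).2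
    right
    rw [mem_iUnion]
    exact ⟨⟨h, hne⟩, hh⟩
  set B : Set X := x '' (insert 1 J : Finset Γ) with hBdef
  have hBfin : B.Finite := (Finset.finite_toSet _).image _
  have hBne : B.Nonempty := ⟨x 1, 1, by simp, rfl⟩
  have hBcl : IsClosed B := hBfin.isClosed
  set GB : Set X := ⋃ h : Γ, (fun y => h • y) '' B with hGBdef
  have hGBc : GB.Countable := countable_iUnion fun h => hBfin.countable.image _
  have hGB : ∀ y ∉ GB, ∀ h : Γ, h • y ∉ B := by
    intro y hy h hh
    apply hy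
    rw [hGBdef, mem_iUnion]
    exact ⟨h⁻¹, h • y, hh, by simp⟩
  -- the comparison points
  have hx' : ∀ g : Γ, ∃ x' : X, x' ∉ GB ∧
      |(lam g (x g) + φ (g • x g) - φ (x g)) - (lam g x' + φ (g • x') - φ x')| < 1 / 4 := by
    intro g
    have hcont : Continuous fun x' : X =>
        |(lam g (x g) + φ (g • x g) - φ (x g)) - (lam g x' + φ (g • x') - φ x')| := by
      have h1 : Continuous fun x' : X => φ (g • x') := φ.continuous.comp (continuous_const_smul g)
      have h2 := (lam g).continuous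
      have h3 := φ.continuous
      fun_prop
    have hop := isOpen_lt hcont (continuous_const (y := (1 / 4 : ℝ)))
    by_contra hcon
    push Not at hcon
    refine hopen _ hop ⟨x g, by simp⟩ (hGBc.mono ?_)
    intro y hy
    by_contra hy2
    exact absurd hy (not_lt.2 (hcon y hy2))
  choose x' hx'1 hx'2 using hx'
  -- zeros of the bump functions
  have E1 : ∀ y ∉ GB, ∀ᶠ K : ℕ in atTop, psi z β N L hL (bump K B) y = 0 := fun y hy =>
    eventually_psi_zero hnil hβ0 hN hBcl hBne (fun l _ => Or.inl (hGB y hy l.prod))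
  have hsmulGB : ∀ y ∉ GB, ∀ g : Γ, g • y ∉ GB := by
    intro y hy g hg
    rw [hGBdef, mem_iUnion] at hg
    obtain ⟨h, b, hb, hh⟩ := hg
    apply hy
    rw [hGBdef, mem_iUnion]
    refine ⟨g⁻¹ * h, b, hb, ?_⟩
    simp only at hh ⊢
    rw [mul_smul, hh, inv_smul_smul]
  have E2 : ∀ g ∈ J, ∀ᶠ K : ℕ in atTop, psi z β N L hL (bump K B) (g • x g) = 0 := by
    intro g hg
    apply eventually_psi_zero hnil hβ0 hN hBcl hBne
    intro l hl
    by_cases hmem : l.prod • g • x g ∈ B
    swap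
    · exact Or.inl hmem
    right
    obtain ⟨g', hg', hh⟩ := hmem
    have hgJ : g ∈ insert 1 J := Finset.mem_insert_of_mem hg
    have h1 : g = g' := hx2 g hgJ g' hg' (l.prod * g) (by rw [mul_smul, hh])
    subst h1
    have h2 : l.prod * g = 1 := hxstab g hgJ _ (by rw [mul_smul, ← hh])
    have h3 : (l.map (fun s => s⁻¹)).reverse.prod = g := by
      rw [← List.prod_inv_reverse]
      exact inv_eq_of_mul_eq_one_right h2
    obtain ⟨l₁, s, l₂, h4, h5⟩ := hvv g ((hJ g).1 hg).2 (l.map (fun s => s⁻¹)).reverse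
      (by simpa using ((hLA l).1 hl).1) (by
        intro s hs
        rw [List.mem_reverse, List.mem_map] at hs
        obtain ⟨s', hs', rfl⟩ := hs
        exact (hAmem _).1 (hAinv _ (((hLA l).1 hl).2 s' hs'))) h3
    have h6 : β (vv g • x g) = 1 := hβnear _ (hx1 g hgJ).1
    have h7 := cost_crossing (z := z) hβ0 (Nat.cast_nonneg N) h6 h4 h5
    have h8 : cost z β N (l.map (fun s => s⁻¹)).reverse (x g) = cost z β N l (g • x g) := by
      have h9 := cost_rev (z := z) (β := β) (N := N) l (g • x g)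
      have h10 : l.prod • g • x g = x g := by rw [← mul_smul, h2, one_smul]
      rwa [h10] at h9
    rwa [h8] at h7
  have E3 : Tendsto (fun K : ℕ => ∫ y, Real.exp (φ y) *
      (Real.exp (psi z β N L hL (bump K B) y) - 1) ∂μ) atTop (𝓝 0) := by
    obtain ⟨C, hC⟩ : ∃ C, ∀ y, φ y ≤ C := ⟨‖φ‖, fun y => (le_abs_self _).trans (φ.norm_coe_le_norm y)⟩
    have h0 : ∫ _y : X, (0 : ℝ) ∂μ = 0 := by simp
    rw [← h0]
    apply tendsto_integral_of_dominated_convergence (fun _ => Real.exp C * Real.exp 1)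
    · intro K
      have h1 : Continuous (psi z β N L hL (bump K B)) := continuous_psi hβc (continuous_bump K B)
      have h2 := φ.continuous
      exact Continuous.aestronglyMeasurable (by fun_prop)
    · exact integrable_const _
    · intro K
      refine Eventually.of_forall fun y => ?_
      have h1 := psi_nonneg (z := z) (β := β) (N := N) (hL := hL) hnil (bump_nonneg K B) y
      have h2 := psi_le_one (z := z) (β := β) (N := N) (L := L) (hL := hL) hβ0 (bump_le_one K B) y
      have h3 : 1 ≤ Real.exp (psi z β N L hL (bump K B) y) := Real.one_le_exp h1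
      have h4 : Real.exp (psi z β N L hL (bump K B) y) ≤ Real.exp 1 := Real.exp_le_exp.2 h2
      rw [Real.norm_eq_abs, abs_mul, abs_of_pos (Real.exp_pos _), abs_of_nonneg (by linarith)]
      apply mul_le_mul (Real.exp_le_exp.2 (hC y)) (by linarith) (by linarith) (Real.exp_pos _).le
    · have h1 : ∀ᵐ y ∂μ, y ∉ GB := hGBc.ae_notMem μ
      filter_upwards [h1] with y hy
      apply tendsto_const_nhds.congr'
      filter_upwards [E1 y hy] with K hK
      rw [hK]; simp
  -- choose `K`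
  have F1 : ∀ᶠ K : ℕ in atTop, ∀ y ∈ hT.toFinset, psi z β N L hL (bump K B) y = 0 := by
    rw [eventually_all_finset]
    intro y hy
    apply E1
    intro hyB
    rw [hGBdef, mem_iUnion] at hyB
    obtain ⟨h, b, ⟨g, hg, rfl⟩, hh⟩ := hyB
    refine hxT g hg h⁻¹ y (by simpa using hy) ?_
    simp only at hh
    rw [← hh, inv_smul_smul]
  have F2 : ∀ᶠ K : ℕ in atTop, ∀ g ∈ J, psi z β N L hL (bump K B) (g • x g) = 0 ∧
      psi z β N L hL (bump K B) (x' g) = 0 ∧ psi z β N L hL (bump K B) (g • x' g) = 0 := by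
    rw [eventually_all_finset]
    intro g hg
    filter_upwards [E2 g hg, E1 _ (hx'1 g), E1 _ (hsmulGB _ (hx'1 g) g)] with K h1 h2 h3
    exact ⟨h1, h2, h3⟩
  have F3 := E3.eventually (eventually_le_nhds hδ)
  obtain ⟨K, hK1, hK2, hK3⟩ := (F1.and (F2.and F3)).exists
  refine ⟨⟨psi z β N L hL (bump K B), continuous_psi hβc (continuous_bump K B)⟩,
    T ∪ (x '' J ∪ ((fun g => g • x g) '' J ∪ (x' '' J ∪ (fun g => g • x' g) '' J))), ?_, ?_, ?_, ?_,
    ?_, ?_, ?_, ?_⟩
  · exact hT.union (((Finset.finite_toSet _).image _).union (((Finset.finite_toSet _).image _).union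
      (((Finset.finite_toSet _).image _).union ((Finset.finite_toSet _).image _))))
  · exact subset_union_left
  · intro y
    exact ⟨psi_nonneg (hL := hL) hnil (bump_nonneg K B) y,
      psi_le_one (hL := hL) hβ0 (bump_le_one K B) y⟩
  · intro y hy
    exact hK1 y (by simpa using hy)
  · intro w hw y
    have h1 := abs_psi_smul_sub_le (z := z) (hL := hL) hLA hβ0 (bump_nonneg K B) (bump_le_one K B) hN
      (s := w) ((hAmem w).2 (Or.inl hw)) ((hAmem _).2 (Or.inl (hWinv w hw))) y
    have h2 : kap z β N w y = 1 := by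
      unfold kap
      rw [if_neg, if_neg]; · ring
      · rintro rfl; exact hz' hw
      · rintro rfl; exact hz hw
    rw [h2] at h1
    exact h1
  · intro y hy
    have h1 := abs_psi_smul_sub_le (z := z) (hL := hL) hLA hβ0 (bump_nonneg K B) (bump_le_one K B) hN
      (s := z) ((hAmem z).2 (Or.inr (Or.inl rfl))) ((hAmem _).2 (Or.inr (Or.inr rfl))) y
    have h2 : kap z β N z y = 1 := by
      unfold kap
      rw [if_pos rfl, hβfar y hy, if_neg hzz]; ring
    rw [h2] at h1
    exact h1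
  · intro g hg1 hg2
    have hg : g ∈ J := (hJ g).2 ⟨hg1, hg2⟩
    have hgJ : g ∈ insert 1 J := Finset.mem_insert_of_mem hg
    refine ⟨x g, ?_, x' g, ?_, ?_, ?_, ?_, (hK2 g hg).1, (hK2 g hg).2.1, (hK2 g hg).2.2,
      (hx'2 g).le⟩
    · right; left; exact ⟨g, hg, rfl⟩
    · right; right; right; left; exact ⟨g, hg, rfl⟩
    · right; right; left; exact ⟨g, hg, rfl⟩
    · right; right; right; right; exact ⟨g, hg, rfl⟩
    · apply le_antisymm (psi_le_one (hL := hL) hβ0 (bump_le_one K B) _)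
      have h1 := f_le_psi (z := z) (β := β) (N := N) (hL := hL) (f := bump K B) hnil (x g)
      have h2 : x g ∈ B := ⟨g, hgJ, rfl⟩
      rwa [bump_self K h2] at h1
  · exact hK3

end Pool.Agent.Work.MP_5a4e9f_an
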