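import Mathlib
import Pool.Agent.Work.MP_5a4e9f_an.Action
import Pool.Agent.Work.MP_5a4e9f_an.Stage

/-!
# The inductive construction
-/

namespace Pool.Agent.Work.MP_5a4e9f_an

open Set Filter Topology MeasureTheory

/-- A state of the construction. -/
structure St where
  W : Set F2
  φ : C(UnitAddCircle, ℝ)
  T : Set UnitAddCircle
  z : F2

/-- Finiteness and symmetry of a state. -/
structure St.Valid (s : St) : Prop where
  finW : s.W.Finite
  inv : ∀ w ∈ s.W, w⁻¹ ∈ s.W
  finT : s.T.Finite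

/-- The relation between consecutive states. -/
structure Step (i : ℕ) (v : UnitAddCircle) (s s' : St) : Prop where
  hW : s'.W = s.W ∪ {s'.z, s'.z⁻¹}
  hT : s.T ⊆ s'.T
  hz : s'.z ≠ 1
  hdist : ∀ x : UnitAddCircle, dist (s'.z • x) x ≤ 1 / 2 ^ i
  hphi : ∀ x : UnitAddCircle, |s.φ (s'.z • x) - s.φ x| ≤ 1 / 2 ^ i
  hlam : ∀ x : UnitAddCircle, |lam s'.z x| ≤ 1 / 2 ^ i
  hnn : ∀ x, s.φ x ≤ s'.φ x
  hzero : ∀ x ∈ s.T, s'.φ x = s.φ x
  hold : ∀ w ∈ s.W, ∀ x : UnitAddCircle,
    |(s'.φ (w • x) - s.φ (w • x)) - (s'.φ x - s.φ x)| ≤ 1 / 2 ^ i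
  hnew : ∀ x : UnitAddCircle, 1 / ((i : ℝ) + 1) ≤ dist x v →
    |(s'.φ (s'.z • x) - s.φ (s'.z • x)) - (s'.φ x - s.φ x)| ≤ 1 / 2 ^ i
  hosc : ∀ g ∈ Qset s'.W (2 ^ (i + 1)), g ∉ Qset s.W (2 ^ i) →
    ∃ x ∈ s'.T, ∃ x' ∈ s'.T, g • x ∈ s'.T ∧ g • x' ∈ s'.T ∧
      s'.φ x = s.φ x + 1 ∧ s'.φ (g • x) = s.φ (g • x) ∧ s'.φ x' = s.φ x' ∧
      s'.φ (g • x') = s.φ (g • x') ∧
      |(lam g x + s.φ (g • x) - s.φ x) - (lam g x' + s.φ (g • x') - s.φ x')| ≤ 1 / 4
  hint : ∫ x, Real.exp (s.φ x) * (Real.exp (s'.φ x - s.φ x) - 1) ≤ 1 / 2 ^ i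

lemma exists_step (i : ℕ) (v : UnitAddCircle) (s : St) (hs : s.Valid) :
    ∃ s' : St, s'.Valid ∧ Step i v s s' := by
  have h2 : (0 : ℝ) < 1 / 2 ^ i := by positivity
  obtain ⟨z, hB, hz1, hz2, hz3, hz4, hd, hphi, hlam⟩ := exists_letter hs.finW (2 ^ i) s.φ h2
  have hr : (0 : ℝ) < 1 / ((i : ℝ) + 1) := by positivity
  obtain ⟨ψ, T', hT', hTT', hψ, hψT, hψW, hψz, hosc, hint⟩ :=
    stage (volume : Measure UnitAddCircle) not_countable_of_isOpen
      (fun g hg => (finite_fixed_smul hg).countable) lam hs.finW hs.inv (2 ^ i) (2 ^ (i + 1))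
      (Nat.one_le_two_pow) hz1 hz2 hz4 hB s.φ hs.finT v hr h2
  refine ⟨⟨s.W ∪ {z, z⁻¹}, s.φ + ψ, T', z⟩, ⟨?_, ?_, hT'⟩, ?_⟩
  · exact hs.finW.union (by simp)
  · intro w hw
    simp only [mem_union, mem_insert_iff, mem_singleton_iff] at hw ⊢
    rcases hw with h | rfl | rfl
    · left; exact hs.inv w h
    · right; right; rfl
    · right; left; rw [inv_inv]
  · have e : ∀ x, (s.φ + ψ) x - s.φ x = ψ x := fun x => by simp
    refine ⟨rfl, hTT', hz3, hd, hphi, hlam, ?_, ?_, ?_, ?_, ?_, ?_⟩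
    · intro x; simp only [ContinuousMap.add_apply]; linarith [(hψ x).1]
    · intro x hx; simp only [ContinuousMap.add_apply]; rw [hψT x hx, add_zero]
    · intro w hw x
      simp only [e]
      have := hψW w hw x
      simpa using this
    · intro x hx
      simp only [e]
      have := hψz x hx
      simpa using this
    · intro g hg hg'
      obtain ⟨x, hx, x', hx', h1, h2, h3, h4, h5, h6, h7⟩ := hosc g hg hg'
      refine ⟨x, hx, x', hx', h1, h2, ?_, ?_, ?_, ?_, h7⟩
      · simp only [ContinuousMap.add_apply]; rw [h3]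
      · simp only [ContinuousMap.add_apply]; rw [h4, add_zero]
      · simp only [ContinuousMap.add_apply]; rw [h5, add_zero]
      · simp only [ContinuousMap.add_apply]; rw [h6, add_zero]
    · simp only [e]
      exact hint

lemma exists_seq (v : ℕ → UnitAddCircle) : ∃ S : ℕ → St,
    (S 0).W = {ga, ga⁻¹, gt, gt⁻¹} ∧ (S 0).φ = 0 ∧ (∀ i, (S i).W.Finite) ∧
      ∀ i, Step i (v i) (S i) (S (i + 1)) := by
  classical
  let s₀ : St := ⟨{ga, ga⁻¹, gt, gt⁻¹}, 0, ∅, 1⟩
  have hs₀ : s₀.Valid := by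
    refine ⟨by simp [s₀], ?_, finite_empty⟩
    intro w hw
    simp only [s₀, mem_insert_iff, mem_singleton_iff] at hw ⊢
    rcases hw with rfl | rfl | rfl | rfl <;> simp
  let nxt : ℕ → {s : St // s.Valid} → {s : St // s.Valid} := fun i s =>
    ⟨(exists_step i (v i) s.1 s.2).choose, (exists_step i (v i) s.1 s.2).choose_spec.1⟩
  have hnxt : ∀ i s, Step i (v i) s.1 (nxt i s).1 := fun i s =>
    (exists_step i (v i) s.1 s.2).choose_spec.2
  let S : ℕ → {s : St // s.Valid} := fun n => Nat.rec ⟨s₀, hs₀⟩ nxt n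
  exact ⟨fun n => (S n).1, rfl, rfl, fun i => (S i).2.finW, fun i => hnxt i (S i)⟩

section
variable {v : ℕ → UnitAddCircle} {S : ℕ → St}

lemma W_mono (hS : ∀ i, Step i (v i) (S i) (S (i + 1))) {i j : ℕ} (hij : i ≤ j) :
    (S i).W ⊆ (S j).W := by
  induction j, hij using Nat.le_induction with
  | base => exact Subset.rfl
  | succ j _ ih => exact ih.trans (by rw [(hS j).hW]; exact subset_union_left)

lemma T_mono (hS : ∀ i, Step i (v i) (S i) (S (i + 1))) {i j : ℕ} (hij : i ≤ j) :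
    (S i).T ⊆ (S j).T := by
  induction j, hij using Nat.le_induction with
  | base => exact Subset.rfl
  | succ j _ ih => exact ih.trans (hS j).hT

lemma phi_const (hS : ∀ i, Step i (v i) (S i) (S (i + 1))) {i j : ℕ} (hij : i ≤ j)
    {x : UnitAddCircle} (hx : x ∈ (S i).T) : (S j).φ x = (S i).φ x := by
  induction j, hij using Nat.le_induction with
  | base => rfl
  | succ j hij ih => rw [(hS j).hzero x (T_mono hS hij hx), ih]

lemma exists_const (hS : ∀ i, Step i (v i) (S i) (S (i + 1)))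
    (h0 : (S 0).W = {ga, ga⁻¹, gt, gt⁻¹}) (g : F2) : ∃ C : ℝ, 0 ≤ C ∧
    ∀ i, ∀ x : UnitAddCircle, |((S (i + 1)).φ (g • x) - (S i).φ (g • x)) -
      ((S (i + 1)).φ x - (S i).φ x)| ≤ C * (1 / 2) ^ i := by
  have hle : ∀ w ∈ (S 0).W, ∀ i, ∀ x : UnitAddCircle,
      |((S (i + 1)).φ (w • x) - (S i).φ (w • x)) - ((S (i + 1)).φ x - (S i).φ x)| ≤
        1 * (1 / 2) ^ i := by
    intro w hw i x
    have := (hS i).hold w (W_mono hS (Nat.zero_le i) hw) x
    rw [one_mul, one_div_pow]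
    exact this
  rw [h0] at hle
  induction g using FreeGroup.induction_on with
  | C1 => exact ⟨0, le_rfl, fun i x => by simp⟩
  | of b =>
    cases b
    · exact ⟨1, zero_le_one, hle gt (by simp)⟩
    · exact ⟨1, zero_le_one, hle ga (by simp)⟩
  | inv_of b _ =>
    cases b
    · exact ⟨1, zero_le_one, hle gt⁻¹ (by simp)⟩
    · exact ⟨1, zero_le_one, hle ga⁻¹ (by simp)⟩
  | mul g h ihg ihh =>
    obtain ⟨C, hC, h1⟩ := ihg
    obtain ⟨C', hC', h2⟩ := ihh
    refine ⟨C + C', add_nonneg hC hC', fun i x => ?_⟩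
    have h3 := h1 i (h • x)
    have h4 := h2 i x
    rw [mul_smul, add_mul]
    refine le_trans ?_ (add_le_add h3 h4)
    refine le_trans (le_of_eq ?_) (abs_add_le _ _)
    congr 1
    ring

lemma exists_word (h0 : (S 0).W = {ga, ga⁻¹, gt, gt⁻¹}) (g : F2) :
    ∃ l : List F2, (∀ s ∈ l, s ∈ (S 0).W) ∧ l.prod = g := by
  induction g using FreeGroup.induction_on with
  | C1 => exact ⟨[], by simp, rfl⟩
  | of b =>
    refine ⟨[FreeGroup.of b], ?_, by simp⟩
    intro s hs
    rw [List.mem_singleton] at hs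
    rw [h0, hs]
    cases b
    · show gt ∈ _; simp
    · show ga ∈ _; simp
  | inv_of b _ =>
    refine ⟨[(FreeGroup.of b)⁻¹], ?_, by simp⟩
    intro s hs
    rw [List.mem_singleton] at hs
    rw [h0, hs]
    cases b
    · show gt⁻¹ ∈ _; simp
    · show ga⁻¹ ∈ _; simp
  | mul g h ihg ihh =>
    obtain ⟨l, h1, h2⟩ := ihg
    obtain ⟨l', h3, h4⟩ := ihh
    refine ⟨l ++ l', ?_, by rw [List.prod_append, h2, h4]⟩
    intro s hs
    rw [List.mem_append] at hs
    exact hs.elim (h1 s) (h3 s)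

end

/-- The result of the inductive construction. -/
theorem construction (v : ℕ → UnitAddCircle) :
    ∃ (Φ : ℕ → C(UnitAddCircle, ℝ)) (z : ℕ → F2) (c : F2 → C(UnitAddCircle, ℝ)) (E : Set F2),
      E.Finite ∧ Φ 0 = 0 ∧ (∀ i x, Φ i x ≤ Φ (i + 1) x) ∧
      (∀ i, ∫ x, (Real.exp (Φ (i + 1) x) - Real.exp (Φ i x)) ≤ 1 / 2 ^ i) ∧
      (∀ g : F2, ∀ ε > 0, ∀ᶠ k in atTop, ∀ x : UnitAddCircle,
        |lam g x + Φ k (g • x) - Φ k x - c g x| ≤ ε) ∧
      (∀ g ∉ E, ∃ x x', c g x - c g x' ≤ -(3 / 4)) ∧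
      (∀ k, z k ≠ 1) ∧ (∀ k : ℕ, ∀ x : UnitAddCircle, dist (z k • x) x ≤ 1 / 2 ^ k) ∧
      (∀ k : ℕ, ∀ x : UnitAddCircle, 1 / ((k : ℝ) + 1) ≤ dist x (v k) →
        |c (z k) x| ≤ 4 / 2 ^ k) := by
  obtain ⟨S, hW0, hφ0, hfin, hS⟩ := exists_seq v
  -- the approximate cocycles
  let cc : ℕ → F2 → C(UnitAddCircle, ℝ) := fun k g =>
    lam g + (S k).φ.comp ⟨fun x => g • x, continuous_const_smul g⟩ - (S k).φ
  have hcc : ∀ k g x, cc k g x = lam g x + (S k).φ (g • x) - (S k).φ x := fun k g x => rfl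
  have hlim : ∀ g, ∃ c : C(UnitAddCircle, ℝ), Tendsto (fun k => cc k g) atTop (𝓝 c) := by
    intro g
    obtain ⟨C, hC, h⟩ := exists_const hS hW0 g
    have hca : CauchySeq fun k => cc k g := by
      refine cauchySeq_of_le_geometric (1 / 2) C (by norm_num) (fun k => ?_)
      rw [ContinuousMap.dist_le (by positivity)]
      intro x
      rw [dist_comm, Real.dist_eq, hcc, hcc]
      refine le_trans (le_of_eq ?_) (h k x)
      congr 1
      ring
    exact cauchySeq_tendsto_of_complete hca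
  choose c hc using hlim
  have hunif : ∀ g : F2, ∀ ε > 0, ∀ᶠ k in atTop, ∀ x : UnitAddCircle,
      |cc k g x - c g x| ≤ ε := by
    intro g ε hε
    have h1 := (Metric.tendsto_atTop.1 (hc g)) ε hε
    obtain ⟨n, hn⟩ := h1
    filter_upwards [eventually_ge_atTop n] with k hk x
    have h2 := (ContinuousMap.dist_le hε.le).1 (hn k hk).le x
    rwa [Real.dist_eq] at h2
  have hpt : ∀ g x, Tendsto (fun k => cc k g x) atTop (𝓝 (c g x)) := by
    intro g x
    rw [Metric.tendsto_atTop]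
    intro ε hε
    obtain ⟨n, hn⟩ := eventually_atTop.1 (hunif g (ε / 2) (half_pos hε))
    refine ⟨n, fun k hk => ?_⟩
    rw [Real.dist_eq]
    linarith [hn k hk x]
  refine ⟨fun i => (S i).φ, fun i => (S (i + 1)).z, c, Qset (S 0).W (2 ^ 0), ?_, hφ0, ?_, ?_, ?_,
    ?_, ?_, ?_, ?_⟩
  · exact finite_Qset (hfin 0) _
  · exact fun i x => (hS i).hnn x
  · intro i
    have h1 := (hS i).hint
    have h2 : ∀ x, Real.exp ((S i).φ x) * (Real.exp ((S (i + 1)).φ x - (S i).φ x) - 1) =
        Real.exp ((S (i + 1)).φ x) - Real.exp ((S i).φ x) := by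
      intro x
      rw [mul_sub, ← Real.exp_add, mul_one]
      congr 2
      ring
    simp only [h2] at h1
    exact h1
  · exact hunif
  · intro g hg
    classical
    have hex : ∃ j, g ∈ Qset (S j).W (2 ^ j) := by
      obtain ⟨l, hl1, hl2⟩ := exists_word hW0 g
      refine ⟨l.length, l, Nat.lt_two_pow_self.le, fun s hs => ?_, hl2⟩
      exact W_mono hS (Nat.zero_le _) (hl1 s hs)
    have hj := Nat.find_spec hex
    have hmin : ∀ m < Nat.find hex, g ∉ Qset (S m).W (2 ^ m) := fun m hm => Nat.find_min hex hm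
    generalize Nat.find hex = j at hj hmin
    cases j with
    | zero => exact absurd hj hg
    | succ i =>
      obtain ⟨x, hx, x', hx', h1, h2, h3, h4, h5, h6, h7⟩ :=
        (hS i).hosc g hj (hmin i (Nat.lt_succ_self i))
      refine ⟨x, x', ?_⟩
      have hlim : Tendsto (fun k => cc k g x - cc k g x') atTop (𝓝 (c g x - c g x')) :=
        (hpt g x).sub (hpt g x')
      refine le_of_tendsto hlim ?_
      filter_upwards [eventually_ge_atTop (i + 1)] with k hk
      rw [hcc, hcc, phi_const hS hk hx, phi_const hS hk hx', phi_const hS hk h1,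
        phi_const hS hk h2, h3, h4, h5, h6]
      have := (abs_le.1 h7).2
      linarith
  · exact fun k => (hS k).hz
  · exact fun k => (hS k).hdist
  · intro k x hx
    set z := (S (k + 1)).z with hz
    have hbound : ∀ j ≥ k, |cc j z x| ≤ 4 / 2 ^ k - 2 / 2 ^ j := by
      intro j hj
      induction j, hj using Nat.le_induction with
      | base =>
        rw [hcc]
        have h1 := (hS k).hphi x
        have h2 := (hS k).hlam x
        rw [← hz] at h1 h2
        have h3 := abs_add_le (lam z x) ((S k).φ (z • x) - (S k).φ x)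
        have h4 : lam z x + ((S k).φ (z • x) - (S k).φ x) =
          lam z x + (S k).φ (z • x) - (S k).φ x := by ring
        rw [h4] at h3
        refine h3.trans ((add_le_add h2 h1).trans (le_of_eq ?_))
        ring
      | succ j hj ih =>
        have h1 : |cc (j + 1) z x - cc j z x| ≤ 1 / 2 ^ j := by
          have e : cc (j + 1) z x - cc j z x = ((S (j + 1)).φ (z • x) - (S j).φ (z • x)) -
              ((S (j + 1)).φ x - (S j).φ x) := by
            rw [hcc, hcc]; ring
          rw [e]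
          rcases Nat.eq_or_lt_of_le hj with h | h
          · subst h
            exact (hS k).hnew x hx
          · apply (hS j).hold
            have hmem : z ∈ (S (k + 1)).W := by
              rw [(hS k).hW]
              right; left; rfl
            exact W_mono hS h hmem
        have h2 := abs_add_le (cc (j + 1) z x - cc j z x) (cc j z x)
        rw [sub_add_cancel] at h2
        refine h2.trans ((add_le_add h1 ih).trans (le_of_eq ?_))
        rw [pow_succ]
        field_simp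
        ring
    have h1 : Tendsto (fun j => |cc j z x|) atTop (𝓝 |c z x|) := (hpt z x).abs
    refine le_of_tendsto h1 ?_
    filter_upwards [eventually_ge_atTop k] with j hj
    have h2 := hbound j hj
    have h3 : (0 : ℝ) < 2 / 2 ^ j := by positivity
    linarith

end Pool.Agent.Work.MP_5a4e9f_an
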