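import Mathlib
import Pool.Agent.Work.MP_5a4e9f_an.Defs
import Pool.Agent.Work.MP_5a4e9f_an.Seq
import Pool.Agent.Work.MP_5a4e9f_an.Conj
import Pool.Agent.Work.MP_5a4e9f_an.NoInv

/-!
# Assembling the example
-/

namespace Pool.Agent.Work.MP_5a4e9f_an

open Set Filter Topology MeasureTheory

/-- A lift of a circle map which is uniformly close to the identity can be taken uniformly close
to the identity. -/
lemma exists_close_lift {F : ℝ → ℝ} {f : UnitAddCircle → UnitAddCircle} (hF : Continuous F)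
    (hlift : IsLift F f) {ε : ℝ} (hε : ε < 1 / 4) (hf : ∀ y, dist (f y) y ≤ ε) :
    ∃ n : ℤ, ∀ u, |F u - n - u| ≤ ε := by
  have h1 : ∀ u, |F u - u - round (F u - u)| ≤ ε := by
    intro u
    have h2 := hf (u : UnitAddCircle)
    rw [hlift u, dist_eq_norm, ← AddCircle.coe_sub, UnitAddCircle.norm_eq] at h2
    exact h2
  have hcont : Continuous fun u => round (F u - u) := by
    rw [continuous_iff_continuousAt]
    intro u
    have h3 : ContinuousAt (fun u => F u - u) u := (hF.sub continuous_id).continuousAt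
    rw [Metric.continuousAt_iff] at h3
    obtain ⟨δ, hδ, h4⟩ := h3 (1 / 4) (by norm_num)
    apply tendsto_const_nhds.congr'
    filter_upwards [Metric.ball_mem_nhds u hδ] with u' hu'
    have h5 := h4 hu'
    rw [Real.dist_eq] at h5
    have h6 : |((round (F u - u) : ℤ) : ℝ) - ((round (F u' - u') : ℤ) : ℝ)| < 1 := by
      have a1 := abs_le.1 (h1 u)
      have a2 := abs_le.1 (h1 u')
      rw [abs_lt] at h5 ⊢
      constructor <;> linarith [a1.1, a1.2, a2.1, a2.2, h5.1, h5.2]
    have h7 : |round (F u - u) - round (F u' - u')| < 1 := by exact_mod_cast h6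
    have h8 := Int.abs_lt_one_iff.1 h7
    linarith
  refine ⟨round (F 0 - 0), fun u => ?_⟩
  have h9 : round (F u - u) = round (F 0 - 0) := PreconnectedSpace.constant inferInstance hcont
  have h10 := h1 u
  rw [h9] at h10
  have e : F u - ((round (F 0 - 0) : ℤ) : ℝ) - u = F u - u - ((round (F 0 - 0) : ℤ) : ℝ) := by ring
  rw [e]
  exact h10

/-- The orbits of the rotation are dense. -/
lemma dense_orbit (x : UnitAddCircle) : DenseRange fun n : ℤ => gt ^ n • x := by
  have h1 : DenseRange fun n : ℤ => n • (alpha : UnitAddCircle) :=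
    AddCircle.denseRange_zsmul_iff.2 addOrderOf_alpha
  have h2 : DenseRange ((fun y : UnitAddCircle => x + y) ∘ fun n : ℤ => n • (alpha : UnitAddCircle)) :=
    (Homeomorph.addLeft x).surjective.denseRange.comp h1 (Homeomorph.addLeft x).continuous
  have h3 : (fun n : ℤ => gt ^ n • x) =
      (fun y : UnitAddCircle => x + y) ∘ fun n : ℤ => n • (alpha : UnitAddCircle) := by
    ext n
    simp only [Function.comp]
    cases n with
    | ofNat m =>
      have : gt ^ (Int.ofNat m) • x = gt ^ m • x := by simp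
      rw [this, gt_pow_smul]
      simp
    | negSucc m =>
      rw [zpow_negSucc, inv_smul_eq_iff, gt_pow_smul, negSucc_zsmul]
      simp
  rw [h3]
  exact h2

section

variable (K : DD)

/-- The conjugated action. -/
noncomputable def conjHom : F2 →* Equiv.Perm UnitAddCircle :=
  toCirc.comp ((MulAut.conj K).toMonoidHom.comp lft)

lemma conjHom_apply (g : F2) (x : UnitAddCircle) :
    conjHom K g (toCirc K x) = toCirc K (g • x) := by
  unfold conjHom
  simp [smul_eq]

lemma conjHom_coe (g : F2) (u : ℝ) :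
    conjHom K g (u : UnitAddCircle) =
      (((K : Equiv.Perm ℝ) ((lft g : Equiv.Perm ℝ) ((K : Equiv.Perm ℝ).symm u)) : ℝ) :
        UnitAddCircle) := rfl

lemma toCirc_symm_coe (u : ℝ) :
    (toCirc K).symm (u : UnitAddCircle) = (((K : Equiv.Perm ℝ).symm u : ℝ) : UnitAddCircle) := rfl

end

/-- The data obtained from the construction. -/
structure Good (K : DD) (c : F2 → C(UnitAddCircle, ℝ)) (E : Set F2) (v : ℕ → UnitAddCircle)
    (z : ℕ → F2) : Prop where
  contK : Continuous (K : Equiv.Perm ℝ)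
  contK' : Continuous (K : Equiv.Perm ℝ).symm
  deriv : ∀ (g : F2) (u : ℝ), HasDerivAt
    (fun u => (K : Equiv.Perm ℝ) ((lft g : Equiv.Perm ℝ) ((K : Equiv.Perm ℝ).symm u)))
    (Real.exp (c g (((K : Equiv.Perm ℝ).symm u : ℝ) : UnitAddCircle))) u
  finE : E.Finite
  osc : ∀ g ∉ E, ∃ x x', c g x - c g x' ≤ -(3 / 4)
  zne : ∀ k, z k ≠ 1
  zdist : ∀ k : ℕ, ∀ x : UnitAddCircle, dist (z k • x) x ≤ 1 / 2 ^ k
  zsmall : ∀ k : ℕ, ∀ x : UnitAddCircle, 1 / ((k : ℝ) + 1) ≤ dist x (v k) →
    |c (z k) x| ≤ 4 / 2 ^ k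

lemma exists_good (v : ℕ → UnitAddCircle) : ∃ K c E z, Good K c E v z := by
  obtain ⟨Φ, z, c, E, hE, h0, hmono, hint, hc, hosc, hz, hzd, hzs⟩ := construction v
  obtain ⟨K, hK, hK', hder⟩ := exists_conj h0 hmono hint
  exact ⟨K, c, E, z, hK, hK', fun g u => hder g (c g) (hc g) u, hE, hosc, hz, hzd, hzs⟩

section

variable {K : DD} {c : F2 → C(UnitAddCircle, ℝ)} {E : Set F2} {v : ℕ → UnitAddCircle}
  {z : ℕ → F2}

/-- The lift of the conjugated map. -/
noncomputable def Lg (K : DD) (g : F2) (u : ℝ) : ℝ :=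
  (K : Equiv.Perm ℝ) ((lft g : Equiv.Perm ℝ) ((K : Equiv.Perm ℝ).symm u))

lemma isLift_Lg (g : F2) : IsLift (Lg K g) (conjHom K g) := fun u => conjHom_coe K g u

lemma deriv_Lg (H : Good K c E v z) (g : F2) (u : ℝ) :
    deriv (Lg K g) u = Real.exp (c g (((K : Equiv.Perm ℝ).symm u : ℝ) : UnitAddCircle)) :=
  (H.deriv g u).deriv

lemma contDiff_Lg (H : Good K c E v z) (g : F2) : ContDiff ℝ 1 (Lg K g) := by
  rw [contDiff_one_iff_deriv]
  refine ⟨fun u => (H.deriv g u).differentiableAt, ?_⟩
  have : deriv (Lg K g) =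
      fun u => Real.exp (c g (((K : Equiv.Perm ℝ).symm u : ℝ) : UnitAddCircle)) := by
    ext u; exact deriv_Lg H g u
  rw [this]
  exact Real.continuous_exp.comp ((c g).continuous.comp
    ((AddCircle.continuous_mk' 1).comp H.contK'))

lemma isDiffeo_conj (H : Good K c E v z) (g : F2) : IsDiffeo 1 (conjHom K g) := by
  refine ⟨⟨Lg K g, contDiff_Lg H g, isLift_Lg g⟩, ⟨Lg K g⁻¹, contDiff_Lg H g⁻¹, ?_⟩⟩
  have : (conjHom K g).symm = conjHom K g⁻¹ := by rw [map_inv]; rfl
  rw [this]
  exact isLift_Lg g⁻¹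

lemma cont_toCirc (H : Good K c E v z) : Continuous (toCirc K) := continuous_toCirc K H.contK

lemma cont_toCirc_symm (H : Good K c E v z) : Continuous (toCirc K).symm := by
  have h1 : (toCirc K).symm = toCirc K⁻¹ := by rw [map_inv]; rfl
  rw [h1]
  exact continuous_toCirc K⁻¹ H.contK'

lemma cont_conj (H : Good K c E v z) (g : F2) : Continuous (conjHom K g) := by
  rw [continuous_circle_iff]
  exact (AddCircle.continuous_mk' 1).comp (contDiff_Lg H g).continuous

lemma nonElementary_conj (H : Good K c E v z) : NonElementary (conjHom K).range := by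
  intro μ hμ
  by_contra hcon
  push Not at hcon
  have hq : Measurable (toCirc K).symm := (cont_toCirc_symm H).measurable
  have key : ∀ g : F2, (μ.map (toCirc K).symm).map (fun x => g • x) = μ.map (toCirc K).symm := by
    intro g
    have h1 := hcon (conjHom K g) ⟨g, rfl⟩
    have hm : Measurable fun x : UnitAddCircle => g • x := (continuous_const_smul g).measurable
    rw [Measure.map_map hm hq]
    conv_rhs => rw [← h1]
    rw [Measure.map_map hq (cont_conj H g).measurable]
    congr 1
    ext y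
    simp only [Function.comp]
    have h2 := conjHom_apply K g ((toCirc K).symm y)
    rw [Equiv.apply_symm_apply] at h2
    rw [h2, Equiv.symm_apply_apply]
  have : IsProbabilityMeasure (μ.map (toCirc K).symm) :=
    Measure.isProbabilityMeasure_map hq.aemeasurable
  exact no_invariant _ (key ga) (key gt)

lemma isLimitSet_conj (H : Good K c E v z) : IsLimitSet (conjHom K).range univ := by
  refine ⟨univ_nonempty, isCompact_univ, fun _ _ _ _ => mem_univ _, fun x _ => ?_⟩
  have h1 : DenseRange (toCirc K ∘ fun n : ℤ => gt ^ n • (toCirc K).symm x) :=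
    (toCirc K).surjective.denseRange.comp (dense_orbit _) (cont_toCirc H)
  intro y _
  refine closure_mono ?_ (h1 y)
  rintro _ ⟨n, rfl⟩
  refine ⟨conjHom K (gt ^ n), ⟨_, rfl⟩, ?_⟩
  have h2 := conjHom_apply K (gt ^ n) ((toCirc K).symm x)
  rw [Equiv.apply_symm_apply] at h2
  rw [h2]
  rfl

lemma exists_moved {g : F2} (hg : g ≠ 1) {U : Set UnitAddCircle} (hU : IsOpen U)
    (hne : U.Nonempty) : ∃ x ∈ U, g • x ≠ x := by
  by_contra hcon
  push Not at hcon
  exact not_countable_of_isOpen U hU hne ((finite_fixed_smul hg).countable.mono hcon)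

/-- No nontrivial element is close to the identity. -/
lemma exists_gap {g : F2} (hg : g ≠ 1) :
    ∃ ε > 0, ∀ δ ≤ ε, ¬ CloseToId 1 (conjHom K g) univ δ := by
  obtain ⟨x, -, hx⟩ := exists_moved hg isOpen_univ univ_nonempty
  have hne : conjHom K g (toCirc K x) ≠ toCirc K x := by
    rw [conjHom_apply]
    exact fun h => hx ((toCirc K).injective h)
  refine ⟨dist (conjHom K g (toCirc K x)) (toCirc K x) / 2, half_pos (dist_pos.2 hne), ?_⟩
  rintro δ hδ ⟨F, hF, hlift, hclose⟩
  generalize toCirc K x = y at hne hδ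
  induction y using QuotientAddGroup.induction_on with
  | H u =>
    have h1 := hclose 0 (by norm_num) u (mem_univ _)
    rw [iteratedDeriv_zero] at h1
    have h2 : dist (conjHom K g (u : UnitAddCircle)) (u : UnitAddCircle) ≤ |F u - u| := by
      rw [hlift u, dist_eq_norm, ← AddCircle.coe_sub]
      exact QuotientAddGroup.norm_mk_le_norm
    have h3 : 0 < dist (conjHom K g (u : UnitAddCircle)) (u : UnitAddCircle) := dist_pos.2 hne
    have h4 : δ ≤ dist (conjHom K g (u : UnitAddCircle)) (u : UnitAddCircle) / 2 := hδ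
    linarith

lemma not_close (H : Good K c E v z) {g : F2} (hg : g ∉ E) {δ : ℝ} (hδ : δ ≤ 1 / 10) :
    ¬ CloseToId 1 (conjHom K g) univ δ := by
  rintro ⟨F, hF, hlift, hclose⟩
  obtain ⟨x, x', hxx⟩ := H.osc g hg
  obtain ⟨n, hn⟩ := lifts_diff hF.continuous (contDiff_Lg H g).continuous (fun u => by
    rw [← hlift u, ← isLift_Lg g u])
  have hFd : ∀ u, deriv (fun y => F y - y) u =
      Real.exp (c g (((K : Equiv.Perm ℝ).symm u : ℝ) : UnitAddCircle)) - 1 := by
    intro u
    have h1 : F = fun y => Lg K g y + n := by ext y; exact hn y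
    have h2 : HasDerivAt F
        (Real.exp (c g (((K : Equiv.Perm ℝ).symm u : ℝ) : UnitAddCircle))) u := by
      rw [h1]
      exact (H.deriv g u).add_const _
    exact (h2.sub (hasDerivAt_id' u)).deriv
  have hval : ∀ y : UnitAddCircle, |Real.exp (c g y) - 1| ≤ 1 / 10 := by
    intro y
    induction y using QuotientAddGroup.induction_on with
    | H s =>
      have h1 := hclose 1 le_rfl ((K : Equiv.Perm ℝ) s) (mem_univ _)
      rw [iteratedDeriv_one, hFd, Equiv.symm_apply_apply] at h1
      exact h1.trans hδ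
  have h1 := (abs_le.1 (hval x)).1
  have h2 := (abs_le.1 (hval x')).2
  have h3 : Real.exp (c g x) ≤ Real.exp (c g x') * Real.exp (-(3 / 4)) := by
    rw [← Real.exp_add]
    exact Real.exp_le_exp.2 (by linarith)
  have h4 : Real.exp (-(3 / 4)) ≤ 4 / 7 := by
    have h5 : (3 / 4 : ℝ) + 1 ≤ Real.exp (3 / 4) := Real.add_one_le_exp _
    rw [Real.exp_neg]
    rw [inv_le_comm₀ (Real.exp_pos _) (by norm_num)]
    linarith
  have h5 : 0 < Real.exp (c g x') := Real.exp_pos _
  nlinarith

lemma isDiscrete_conj (H : Good K c E v z) : IsDiscrete 1 (conjHom K).range := by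
  intro g hg hconv
  choose γ hγ using hg
  have h1 : ∀ᶠ n in atTop, γ n ∈ E := by
    filter_upwards [hconv (1 / 10) (by norm_num)] with n hn
    by_contra hcon
    rw [← hγ n] at hn
    exact not_close H hcon le_rfl hn
  have h2 : ∀ e ∈ H.finE.toFinset, ∀ᶠ n in atTop, γ n = e → g n = 1 := by
    intro e _
    by_cases he : e = 1
    · refine Eventually.of_forall fun n hn => ?_
      rw [← hγ n, hn, he, map_one]
    · obtain ⟨ε, hε, hgap⟩ := exists_gap (K := K) he
      filter_upwards [hconv ε hε] with n hn hne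
      rw [← hγ n, hne] at hn
      exact absurd hn (hgap ε le_rfl)
  filter_upwards [h1, (eventually_all_finset _).2 h2] with n hn1 hn2
  exact hn2 (γ n) (by simpa using hn1) rfl

/-- Every closed interval fails to be a witness of local discreteness. -/
lemma exists_sequence (H : Good K c E v z)
    (hv : ∀ U : Set UnitAddCircle, IsOpen U → U.Nonempty →
      ∃ y ∈ U, ∀ m : ℕ, ∃ k ≥ m, v k = y)
    {I : Set UnitAddCircle} (hI : IsClosedInterval I) :
    ∃ g : ℕ → Equiv.Perm UnitAddCircle, (∀ n, g n ∈ (conjHom K).range) ∧ ConvergesToId 1 g I ∧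
      ∀ n, ∃ x ∈ I, g n x ≠ x := by
  obtain ⟨a, b, hab, hba, rfl⟩ := hI
  set I : Set UnitAddCircle := (fun x : ℝ => (x : UnitAddCircle)) '' Icc a b with hI
  have hIc : IsClosed I := (isCompact_Icc.image (AddCircle.continuous_mk' 1)).isClosed
  have hIne : ((((b + a + 1) / 2 : ℝ)) : UnitAddCircle) ∉ I := by
    rintro ⟨s, hs, hse⟩
    have hse' : (s : UnitAddCircle) = (((b + a + 1) / 2 : ℝ) : UnitAddCircle) := hse
    rw [← sub_eq_zero, ← AddCircle.coe_sub, AddCircle.coe_eq_zero_iff] at hse'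
    obtain ⟨n, hn⟩ := hse'
    simp at hn
    have h1 : (n : ℝ) < 0 := by rw [hn]; linarith [hs.2]
    have h2 : (-1 : ℝ) < n := by rw [hn]; linarith [hs.1]
    have h3 : n < 0 := by exact_mod_cast h1
    have h4 : -1 < n := by exact_mod_cast h2
    omega
  -- the preimage of `I`
  have hJc : IsClosed (toCirc K ⁻¹' I) := hIc.preimage (cont_toCirc H)
  obtain ⟨y, hy, hyv⟩ := hv (toCirc K ⁻¹' I)ᶜ hJc.isOpen_compl
    ⟨(toCirc K).symm (((b + a + 1) / 2 : ℝ) : UnitAddCircle), by
      rw [mem_compl_iff, mem_preimage, Equiv.apply_symm_apply]; exact hIne⟩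
  obtain ⟨r, hr, hball⟩ := Metric.isOpen_iff.1 hJc.isOpen_compl y hy
  have hfar : ∀ x ∈ toCirc K ⁻¹' I, r ≤ dist x y := by
    intro x hx
    by_contra hcon
    rw [not_le] at hcon
    exact hball hcon hx
  choose k hk hvk using hyv
  refine ⟨fun m => conjHom K (z (k m)), fun m => ⟨_, rfl⟩, ?_, ?_⟩
  · intro ε hε
    -- uniform continuity
    have hu := Metric.uniformContinuous_iff.1
      (CompactSpace.uniformContinuous_of_continuous (cont_toCirc H))
    set ε' := min ε (1 / 8) with hε'
    have hε'0 : 0 < ε' := lt_min hε (by norm_num)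
    obtain ⟨δ, hδ, hδ1⟩ := hu ε' hε'0
    obtain ⟨δ₂, hδ₂, hδ3⟩ := (Metric.continuousAt_iff.1
      (Real.continuous_exp.continuousAt (x := 0))) ε hε
    have hpow : Tendsto (fun m : ℕ => (1 : ℝ) / 2 ^ m) atTop (𝓝 0) := by
      have := tendsto_pow_atTop_nhds_zero_of_lt_one (r := (1 / 2 : ℝ)) (by norm_num) (by norm_num)
      simpa [one_div_pow] using this
    have hinv : Tendsto (fun m : ℕ => (1 : ℝ) / ((m : ℝ) + 1)) atTop (𝓝 0) :=
      tendsto_one_div_add_atTop_nhds_zero_nat
    filter_upwards [hpow.eventually (gt_mem_nhds hδ),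
      hpow.eventually (gt_mem_nhds (show (0 : ℝ) < δ₂ / 4 by positivity)),
      hinv.eventually (gt_mem_nhds hr)] with m h1 h2 h3
    have hle : (1 : ℝ) / 2 ^ (k m) ≤ 1 / 2 ^ m := by
      apply one_div_le_one_div_of_le (by positivity)
      exact pow_le_pow_right₀ (by norm_num) (hk m)
    have hclose : ∀ y : UnitAddCircle, dist (conjHom K (z (k m)) y) y ≤ ε' := by
      intro y
      have h4 := conjHom_apply K (z (k m)) ((toCirc K).symm y)
      rw [Equiv.apply_symm_apply] at h4
      rw [h4]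
      have h5 : dist (z (k m) • (toCirc K).symm y) ((toCirc K).symm y) < δ :=
        ((H.zdist (k m) _).trans hle).trans_lt h1
      have h6 := hδ1 h5
      rw [Equiv.apply_symm_apply] at h6
      exact h6.le
    obtain ⟨n, hn⟩ := exists_close_lift (contDiff_Lg H (z (k m))).continuous
      (isLift_Lg (K := K) (z (k m))) (lt_of_le_of_lt (min_le_right ε (1 / 8)) (by norm_num)) hclose
    refine ⟨fun u => Lg K (z (k m)) u - n, (contDiff_Lg H _).sub contDiff_const, ?_, ?_⟩
    · intro u
      rw [isLift_Lg (K := K) (z (k m)) u, AddCircle.coe_sub]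
      have : (((n : ℤ) : ℝ) : UnitAddCircle) = 0 := by
        rw [AddCircle.coe_eq_zero_iff]; exact ⟨n, by simp⟩
      rw [this, sub_zero]
    · intro j hj u hu
      have hj' : j = 0 ∨ j = 1 := by omega
      rcases hj' with rfl | rfl
      · rw [iteratedDeriv_zero]
        exact (hn u).trans (min_le_left _ _)
      · rw [iteratedDeriv_one]
        have h4 : HasDerivAt (fun u => Lg K (z (k m)) u - n - u)
            (Real.exp (c (z (k m)) (((K : Equiv.Perm ℝ).symm u : ℝ) : UnitAddCircle)) - 1) u :=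
          ((H.deriv (z (k m)) u).sub_const _).sub (hasDerivAt_id' u)
        rw [h4.deriv]
        have h5 : (((K : Equiv.Perm ℝ).symm u : ℝ) : UnitAddCircle) ∈ toCirc K ⁻¹' I := by
          rw [mem_preimage, ← toCirc_symm_coe, Equiv.apply_symm_apply]
          exact hu
        have h6 : 1 / ((k m : ℝ) + 1) ≤
            dist (((K : Equiv.Perm ℝ).symm u : ℝ) : UnitAddCircle) (v (k m)) := by
          rw [hvk m]
          refine le_trans ?_ (hfar _ h5)
          refine le_trans ?_ h3.le
          apply one_div_le_one_div_of_le (by positivity)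
          have : (m : ℝ) ≤ k m := by exact_mod_cast hk m
          linarith
        have h7 := H.zsmall (k m) _ h6
        have h8 : |c (z (k m)) (((K : Equiv.Perm ℝ).symm u : ℝ) : UnitAddCircle)| < δ₂ := by
          refine lt_of_le_of_lt h7 ?_
          have : (4 : ℝ) / 2 ^ (k m) = 4 * (1 / 2 ^ (k m)) := by ring
          rw [this]
          linarith
        have h9 := hδ3 (x := c (z (k m)) (((K : Equiv.Perm ℝ).symm u : ℝ) : UnitAddCircle))
          (by rw [Real.dist_eq, sub_zero]; exact h8)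
        rw [Real.dist_eq, Real.exp_zero] at h9
        exact h9.le
  · intro m
    have hop : IsOpen ((fun x : ℝ => (x : UnitAddCircle)) '' Ioo a b) :=
      QuotientAddGroup.isOpenMap_coe _ isOpen_Ioo
    obtain ⟨x, hx, hx2⟩ := exists_moved (H.zne (k m)) (hop.preimage (cont_toCirc H))
      ⟨(toCirc K).symm (((a + b) / 2 : ℝ) : UnitAddCircle), by
        rw [mem_preimage, Equiv.apply_symm_apply]
        exact ⟨(a + b) / 2, ⟨by linarith, by linarith⟩, rfl⟩⟩
    refine ⟨toCirc K x, image_mono Ioo_subset_Icc_self hx, ?_⟩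
    simp only
    rw [conjHom_apply]
    exact fun h => hx2 ((toCirc K).injective h)

end

/-- The main theorem, in terms of the conjugated action. -/
theorem main : ∃ f g : Equiv.Perm UnitAddCircle,
    (∀ h ∈ Subgroup.closure {f, g}, IsDiffeo 1 h) ∧
    NonElementary (Subgroup.closure {f, g}) ∧
    IsLimitSet (Subgroup.closure {f, g}) univ ∧
    IsDiscrete 1 (Subgroup.closure {f, g}) ∧
    ¬ IsLocallyDiscrete 1 (Subgroup.closure {f, g}) ∧
    ∀ I : Set UnitAddCircle, IsClosedInterval I →
      ∃ u : ℕ → Equiv.Perm UnitAddCircle, (∀ n, u n ∈ Subgroup.closure {f, g}) ∧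
        ConvergesToId 1 u I ∧ ∀ n, ∃ x ∈ I, u n x ≠ x := by
  -- a sequence taking every value of a dense sequence infinitely often
  set d : ℕ → UnitAddCircle := TopologicalSpace.denseSeq UnitAddCircle with hd
  have hdense : DenseRange d := TopologicalSpace.denseRange_denseSeq _
  set v : ℕ → UnitAddCircle := fun n => d (Nat.unpair n).1 with hvdef
  have hv : ∀ U : Set UnitAddCircle, IsOpen U → U.Nonempty →
      ∃ y ∈ U, ∀ m : ℕ, ∃ k ≥ m, v k = y := by
    intro U hU hne
    obtain ⟨j, hj⟩ := hdense.exists_mem_open hU hne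
    refine ⟨d j, hj, fun m => ⟨Nat.pair j m, Nat.right_le_pair j m, ?_⟩⟩
    simp [hvdef]
  obtain ⟨K, c, E, z, H⟩ := exists_good v
  have hrange : (conjHom K).range = Subgroup.closure {conjHom K ga, conjHom K gt} := by
    rw [MonoidHom.range_eq_map, ← FreeGroup.closure_range_of, MonoidHom.map_closure]
    congr 1
    ext p
    constructor
    · rintro ⟨_, ⟨b, rfl⟩, rfl⟩
      cases b
      · right; rfl
      · left; rfl
    · rintro (rfl | rfl)
      · exact ⟨_, ⟨true, rfl⟩, rfl⟩
      · exact ⟨_, ⟨false, rfl⟩, rfl⟩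
  refine ⟨conjHom K ga, conjHom K gt, ?_⟩
  rw [← hrange]
  refine ⟨?_, nonElementary_conj H, isLimitSet_conj H, isDiscrete_conj H, ?_,
    fun I hI => exists_sequence H hv hI⟩
  · rintro h ⟨g, rfl⟩
    exact isDiffeo_conj H g
  · rintro ⟨Λ, hΛ, cover, hint, hcov, hloc⟩
    obtain ⟨x, hx⟩ := hΛ.1
    obtain ⟨I, hI, -⟩ := hcov hx
    obtain ⟨u, hu1, hu2, hu3⟩ := exists_sequence H hv (hint I hI)
    obtain ⟨n, hn⟩ := (hloc I hI u hu1 hu2).exists
    obtain ⟨y, hy, hy2⟩ := hu3 n
    exact hy2 (hn y hy)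

end Pool.Agent.Work.MP_5a4e9f_an
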